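import Pool.Agent.E8helper74.FQ.Main
import Pool.Agent.E8helper74.BA.NewtMain

/-!
# Systems of polynomials with independent exponents
-/

set_option autoImplicit false
set_option linter.unusedSectionVars false

open MvPolynomial Pool.Agent.E8helper74.BA

attribute [local instance] Classical.propDecidable

namespace Pool.Agent.E8helper74.FQ

/-- Every integral function on the exponents of the `f l` becomes, after multiplication by `N` and up to a
constant for each `l`, the restriction of an integral linear form. -/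
def Split {A σ κ : Type} [CommRing A] [Fintype σ] (N : ℕ) (f : κ → MvPolynomial σ A) : Prop :=
  ∀ w : κ → (σ →₀ ℕ) → ℤ, ∃ (r : σ → ℤ) (b : κ → ℤ), ∀ l, ∀ m ∈ (f l).support,
    ∑ j, (m j : ℤ) * r j = b l + N * w l m

section

variable {A : Type} [CommRing A] {σ κ : Type} [Fintype σ] [Fintype κ] (f : κ → MvPolynomial σ A)

/-- the exponents -/
noncomputable def expo (l : κ) (i : ℕ) : σ →₀ ℕ :=
  if h : i < (f l).support.card then ((f l).support.equivFin.symm ⟨i, h⟩ : σ →₀ ℕ) else 0

/-- the coefficients -/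
noncomputable def coef (l : κ) (i : ℕ) : A := coeff (expo f l i) (f l)

theorem expo_mem (l : κ) (i : ℕ) (h : i < (f l).support.card) : expo f l i ∈ (f l).support := by
  unfold expo
  rw [dif_pos h]
  exact ((f l).support.equivFin.symm ⟨i, h⟩).2

theorem ps_expo (l : κ) : ps (expo f) (coef f) l (f l).support.card = f l := by
  unfold ps tm coef
  conv_rhs => rw [(f l).as_sum]
  rw [← Finset.sum_coe_sort (f l).support (fun m => monomial m (coeff m (f l)))]
  rw [← Fin.sum_univ_eq_sum_range (fun i => monomial (expo f l i) (coeff (expo f l i) (f l)))]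
  refine Fintype.sum_equiv (f l).support.equivFin.symm _ _ ?_
  intro i
  have h : expo f l i = ((f l).support.equivFin.symm i : σ →₀ ℕ) := by
    unfold expo
    rw [dif_pos i.2]
  rw [h]

theorem cond_of_split {N : ℕ} (h : Split N f) : Cond (fun l => (f l).support.card) (expo f) N := by
  intro w
  obtain ⟨r, b, hrb⟩ := h fun l m => if hm : m ∈ (f l).support then
    w l ((f l).support.equivFin ⟨m, hm⟩) else 0
  refine ⟨r, b, fun l i hi => ?_⟩
  rw [hrb l _ (expo_mem f l i hi), dif_pos (expo_mem f l i hi)]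
  congr 3
  have h1 : (⟨expo f l i, expo_mem f l i hi⟩ : (f l).support) =
      (f l).support.equivFin.symm ⟨i, hi⟩ := by
    apply Subtype.ext
    change expo f l i = _
    unfold expo
    rw [dif_pos hi]
  rw [h1, Equiv.apply_symm_apply]

end

theorem fermat_poly {k : Type} [Field k] {A : Type} [CommRing A] [Algebra k A]
    [Algebra.FiniteType k A] {σ κ : Type} [Fintype σ] [Fintype κ]
    {F : ∀ (B : Type) [CommRing B] [Algebra k B], Prop} (hF : GoodF k F) {N : ℕ} (hN : 0 < N)
    (f : κ → MvPolynomial σ A) (hf : Split N f)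
    (hbase : ∀ (E : Type) [CommRing E] [Algebra k E] [Algebra.FiniteType k E] (m : ℕ),
      ringKrullDim E ≤ ringKrullDim A → m ≤ ∑ l, ((f l).support.card - 2) → F (Fer E m N)) :
    F (MvPolynomial σ A ⧸ Ideal.span (Set.range f)) := by
  have h := fermat (fun l => (f l).support.card) (expo f) (coef f) hF hN (cond_of_split f hf) hbase
  have h1 : (fun l => ps (expo f) (coef f) l (f l).support.card) = f := funext fun l => ps_expo f l
  rw [h1] at h
  exact h

section indep

variable {A : Type} [CommRing A] {σ κ : Type} [Fintype σ] [Fintype κ] (f : κ → MvPolynomial σ A)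

/-- the exponent `m` of `f l`, with a one in the place `l` -/
noncomputable def cay (x : Σ l : κ, (f l).support) : (κ → ℚ) × (σ → ℚ) :=
  (fun l => if l = x.1 then 1 else 0, fun j => (((x.2 : σ →₀ ℕ) j : ℕ) : ℚ))

theorem split_of_indep (h : LinearIndependent ℚ (cay f)) : ∃ N : ℕ, 0 < N ∧ Split N f := by
  obtain ⟨g, hg⟩ := (LinearMap.exists_leftInverse_of_injective
    (Fintype.linearCombination ℚ (cay f)) (by
      rw [LinearMap.ker_eq_bot, ← linearIndependent_iff_injective_fintypeLinearCombination]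
      exact h))
  have hg1 : ∀ x : Σ l : κ, (f l).support, g (cay f x) = Pi.single x 1 := by
    intro x
    have h1 := LinearMap.congr_fun hg (Pi.single x 1)
    rw [LinearMap.comp_apply, Fintype.linearCombination_apply_single, one_smul] at h1
    exact h1
  -- the coefficients of the linear forms
  let u : (Σ l : κ, (f l).support) → κ → ℚ := fun x l => g (Pi.single l 1, 0) x
  let v : (Σ l : κ, (f l).support) → σ → ℚ := fun x j => g (0, Pi.single j 1) x
  have hguv : ∀ (x : Σ l : κ, (f l).support) (s : κ → ℚ) (t : σ → ℚ),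
      g (s, t) x = ∑ l, s l * u x l + ∑ j, t j * v x j := by
    intro x s t
    have h1 : ((s, t) : (κ → ℚ) × (σ → ℚ)) =
        ∑ l, s l • ((Pi.single l 1, 0) : (κ → ℚ) × (σ → ℚ)) +
          ∑ j, t j • ((0, Pi.single j 1) : (κ → ℚ) × (σ → ℚ)) := by
      refine Prod.ext ?_ ?_
      · rw [Prod.fst_add, Prod.fst_sum, Prod.fst_sum]
        simp only [Prod.smul_mk, smul_zero, Finset.sum_const_zero, add_zero]
        conv_lhs => rw [pi_eq_sum_univ' s]
      · rw [Prod.snd_add, Prod.snd_sum, Prod.snd_sum]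
        simp only [Prod.smul_mk, smul_zero, Finset.sum_const_zero, zero_add]
        conv_lhs => rw [pi_eq_sum_univ' t]
    rw [h1, map_add, map_sum, map_sum, Pi.add_apply, Finset.sum_apply, Finset.sum_apply]
    simp only [map_smul, Pi.smul_apply, smul_eq_mul]
    rfl
  -- common denominator
  obtain ⟨N, hN, hNu, hNv⟩ : ∃ N : ℕ, 0 < N ∧ (∀ x l, ∃ z : ℤ, (N : ℚ) * u x l = z) ∧
      ∀ x j, ∃ z : ℤ, (N : ℚ) * v x j = z := by
    let N : ℕ := (∏ x, ∏ l, (u x l).den) * ∏ x, ∏ j, (v x j).den
    have key : ∀ q : ℚ, q.den ∣ N → ∃ z : ℤ, (N : ℚ) * q = z := by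
      rintro q ⟨t, ht⟩
      refine ⟨t * q.num, ?_⟩
      rw [ht]
      push_cast
      have h2 : (q.den : ℚ) * q = q.num := by
        rw [mul_comm]
        exact Rat.mul_den_eq_num q
      calc (q.den : ℚ) * t * q = t * (q.den * q) := by ring
        _ = t * q.num := by rw [h2]
    refine ⟨N, ?_, ?_, ?_⟩
    · refine Nat.mul_pos (Finset.prod_pos fun x _ => Finset.prod_pos fun l _ => (u x l).den_pos)
        (Finset.prod_pos fun x _ => Finset.prod_pos fun l _ => (v x l).den_pos)
    · intro x l
      refine key _ (Dvd.dvd.mul_right ?_ _)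
      exact (Finset.dvd_prod_of_mem (fun l => (u x l).den) (Finset.mem_univ l)).trans
        (Finset.dvd_prod_of_mem (fun x => ∏ l, (u x l).den) (Finset.mem_univ x))
    · intro x l
      refine key _ (Dvd.dvd.mul_left ?_ _)
      exact (Finset.dvd_prod_of_mem (fun l => (v x l).den) (Finset.mem_univ l)).trans
        (Finset.dvd_prod_of_mem (fun x => ∏ l, (v x l).den) (Finset.mem_univ x))
  choose U hU using hNu
  choose V hV using hNv
  refine ⟨N, hN, fun w => ?_⟩
  refine ⟨fun j => ∑ x : Σ l : κ, (f l).support, w x.1 x.2 * V x j,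
    fun l => -∑ x : Σ l : κ, (f l).support, w x.1 x.2 * U x l, fun l m hm => ?_⟩
  have h2 : ∀ x : Σ l : κ, (f l).support, (U x l : ℚ) + ∑ j, (m j : ℚ) * V x j =
      N * if x = ⟨l, ⟨m, hm⟩⟩ then 1 else 0 := by
    intro x
    have h3 := congrFun (hg1 ⟨l, ⟨m, hm⟩⟩) x
    unfold cay at h3
    rw [hguv] at h3
    have h4 : ∑ l', (if l' = l then (1 : ℚ) else 0) * u x l' = u x l := by
      rw [Finset.sum_eq_single l]
      · rw [if_pos rfl, one_mul]
      · intro b _ hb
        rw [if_neg hb, zero_mul]
      · intro h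
        exact absurd (Finset.mem_univ _) h
    have h5 : (N : ℚ) * (∑ l', (if l' = l then (1 : ℚ) else 0) * u x l' +
        ∑ j, (m j : ℚ) * v x j) = N * (Pi.single (⟨l, ⟨m, hm⟩⟩ : Σ l : κ, (f l).support) (1 : ℚ) :
          (Σ l : κ, (f l).support) → ℚ) x := by
      rw [← h3]
    rw [h4, mul_add, hU, Finset.mul_sum, Pi.single_apply] at h5
    rw [← h5]
    congr 1
    apply Finset.sum_congr rfl
    intro j _
    rw [← hV]
    ring
  have h3 : (∑ j, (m j : ℚ) * ∑ x : Σ l : κ, (f l).support, (w x.1 x.2 : ℚ) * V x j) =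
      -∑ x : Σ l : κ, (f l).support, (w x.1 x.2 : ℚ) * U x l + N * w l m := by
    have h4 : (∑ j, (m j : ℚ) * ∑ x : Σ l : κ, (f l).support, (w x.1 x.2 : ℚ) * V x j) +
        ∑ x : Σ l : κ, (f l).support, (w x.1 x.2 : ℚ) * U x l =
        ∑ x : Σ l : κ, (f l).support, (w x.1 x.2 : ℚ) * ((U x l : ℚ) + ∑ j, (m j : ℚ) * V x j) := by
      simp only [Finset.mul_sum, mul_add, Finset.sum_add_distrib]
      rw [Finset.sum_comm, add_comm]
      congr 1
      apply Finset.sum_congr rfl
      intro x _
      apply Finset.sum_congr rfl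
      intro j _
      ring
    have h5 : (∑ x : Σ l : κ, (f l).support, (w x.1 x.2 : ℚ) *
        ((U x l : ℚ) + ∑ j, (m j : ℚ) * V x j)) = N * w l m := by
      simp only [h2]
      rw [Finset.sum_eq_single (⟨l, ⟨m, hm⟩⟩ : Σ l : κ, (f l).support)]
      · rw [if_pos rfl]
        ring
      · intro b _ hb
        rw [if_neg hb]
        ring
      · intro h
        exact absurd (Finset.mem_univ _) h
    linarith
  have h4 : ((∑ j, (m j : ℤ) * ∑ x : Σ l : κ, (f l).support, w x.1 x.2 * V x j : ℤ) : ℚ) =
      ((-∑ x : Σ l : κ, (f l).support, w x.1 x.2 * U x l + N * w l m : ℤ) : ℚ) := by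
    push_cast
    exact h3
  exact_mod_cast h4

end indep

end Pool.Agent.E8helper74.FQ
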