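import Pool.Agent.E8helper74.FQ.Dep
import Pool.Agent.E8helper74.BA.Fin2

/-!
# Properties of schemes over a finite field
-/

set_option autoImplicit false
set_option linter.unusedSectionVars false

open CategoryTheory CategoryTheory.Limits AlgebraicGeometry MvPolynomial
open Pool.Agent.R904.CU Pool.Agent.R904.TR Pool.Agent.Y116.UV Pool.Agent.Z125.UN Pool.Agent.Q282.UZ
open Pool.Agent.E8helper74.BA

namespace Pool.Agent.E8helper74.FQ

section

variable {k : Type} [Field k] {P : Sch k → Prop} (hP : Bnd True P)

include hP

theorem s_iso (A B : Type) [CommRing A] [CommRing B] [Algebra k A] [Algebra k B]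
    [Algebra.FiniteType k A] (e : A ≃ₐ[k] B) (h : P (aff k A)) : P (aff k B) :=
  iso_alg hP.toUni e h

theorem s_glue (B : Type) [CommRing B] [Algebra k B] [Algebra.FiniteType k B] (c : B)
    (h1 : P (aff k (B ⧸ Ideal.span {c}))) (h2 : P (aff k (Localization.Away c))) :
    P (aff k B) :=
  hP.total _ _ (ft_aff (R := k) (A := B) True) (triple_away (R := k) c) h1 h2

theorem s_laurent (A : Type) [CommRing A] [Algebra k A] [Algebra.FiniteType k A]
    (h : P (aff k A)) : P (aff k (LaurentPolynomial A)) := by
  have h1 : P (aff k (MvPolynomial PUnit A)) := p_poly hP (A := A) PUnit h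
  have h2 : Algebra.FiniteType k (MvPolynomial PUnit A) :=
    Algebra.FiniteType.trans (S := A) inferInstance inferInstance
  have h3 : P (aff k (Polynomial A)) := s_iso hP (MvPolynomial PUnit A) (Polynomial A)
    ((uniqueAlgEquiv A PUnit).restrictScalars k) h1
  have h4 : Algebra.FiniteType k (Polynomial A) :=
    Algebra.FiniteType.trans (S := A) inferInstance inferInstance
  have h5 : P (aff k (Polynomial A ⧸ Ideal.span {(Polynomial.X : Polynomial A)})) := by
    have e := (Polynomial.quotientSpanXSubCAlgEquiv (0 : A)).symm.restrictScalars k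
    rw [map_zero, sub_zero] at e
    exact s_iso hP _ _ e h
  have h6 : P (aff k (Localization.Away (Polynomial.X : Polynomial A))) :=
    hP.opened _ _ (ft_aff (R := k) (A := Polynomial A) True)
      (triple_away (R := k) (Polynomial.X : Polynomial A)) h5 h3
  have h7 : Algebra.FiniteType k (Localization.Away (Polynomial.X : Polynomial A)) :=
    Algebra.FiniteType.trans (S := Polynomial A) inferInstance inferInstance
  have e2 : Localization.Away (Polynomial.X : Polynomial A) ≃ₐ[Polynomial A]
      LaurentPolynomial A := IsLocalization.algEquiv (Submonoid.powers (Polynomial.X : Polynomial A)) _ _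
  have hT : IsScalarTower k (Polynomial A) (LaurentPolynomial A) :=
    IsScalarTower.of_algebraMap_eq fun x => by
      change LaurentPolynomial.C (algebraMap k A x) = Polynomial.toLaurent (Polynomial.C _)
      rw [Polynomial.toLaurent_C]
  exact s_iso hP _ _ (e2.restrictScalars k) h6

theorem s_good (hc : ∀ (A B : Type) [CommRing A] [CommRing B] [Algebra k A] [Algebra k B] [Algebra A B]
    [IsScalarTower k A B] [Algebra.FiniteType k A] [Module.Free A B] [Module.Finite A B],
    Function.Injective (algebraMap A B) → P (aff k B) → P (aff k A)) :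
    GoodF k (fun B _ _ => P (aff k B)) where
  iso A B _ _ _ _ _ e h := s_iso hP A B e h
  glue B _ _ _ c h1 h2 := s_glue hP B c h1 h2
  laurent A _ _ _ h := s_laurent hP A h
  cover := hc

end

section const

theorem const_of_pow {B : Type} [CommRing B] {p r : ℕ} [hp : Fact p.Prime]
    [hch : CharP (LaurentPolynomial B) p] (hr : 0 < r)
    (x : LaurentPolynomial B) (hx : x ^ p ^ r = x) : ∃ b : B, x = LaurentPolynomial.C b := by
  have hq : 1 < p ^ r := Nat.one_lt_pow hr.ne' hp.out.one_lt
  have h2 : x = ∑ i ∈ x.coeff.support, AddMonoidAlgebra.single i (x.coeff i) :=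
    (AddMonoidAlgebra.sum_coeff_single x).symm
  have h1 : x ^ p ^ r = ∑ i ∈ x.coeff.support,
      AddMonoidAlgebra.single ((p ^ r : ℕ) • i) (x.coeff i ^ p ^ r) := by
    have h3 := sum_pow_char_pow p r x.coeff.support fun i =>
      (AddMonoidAlgebra.single i (x.coeff i) : LaurentPolynomial B)
    rw [← h2] at h3
    rw [h3]
    apply Finset.sum_congr rfl
    intro i _
    exact AddMonoidAlgebra.single_pow _ _ _
  have h4 : ∀ j ∈ x.coeff.support, ∃ i ∈ x.coeff.support, (p ^ r : ℕ) • i = j := by
    intro j hj
    rw [Finsupp.mem_support_iff] at hj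
    by_contra hcon
    push Not at hcon
    apply hj
    rw [← hx, h1, AddMonoidAlgebra.coeff_sum, Finsupp.finsetSum_apply]
    refine Finset.sum_eq_zero fun i hi => ?_
    rw [AddMonoidAlgebra.coeff_single, Finsupp.single_apply, if_neg (hcon i hi)]
  have h5 : ∀ n : ℕ, ∀ j ∈ x.coeff.support, j.natAbs = n → n = 0 := by
    intro n
    induction n using Nat.strong_induction_on with
    | _ n ih =>
      intro j hj hjn
      by_contra hn
      obtain ⟨i, hi, hij⟩ := h4 j hj
      have h6 : j.natAbs = p ^ r * i.natAbs := by
        rw [← hij, nsmul_eq_mul, Int.natAbs_mul, Int.natAbs_natCast]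
      have h7 : i.natAbs ≠ 0 := by
        intro h0
        rw [h0, mul_zero] at h6
        omega
      have h8 : i.natAbs < n := by
        rw [← hjn, h6]
        calc i.natAbs = 1 * i.natAbs := (one_mul _).symm
          _ < p ^ r * i.natAbs := Nat.mul_lt_mul_of_pos_right hq (Nat.pos_of_ne_zero h7)
      exact h7 (ih _ h8 i hi rfl)
  refine ⟨x.coeff 0, ?_⟩
  change x = AddMonoidAlgebra.single 0 (x.coeff 0)
  conv_lhs => rw [h2]
  by_cases h0 : (0 : ℤ) ∈ x.coeff.support
  · rw [Finset.sum_eq_single (0 : ℤ)]
    · intro j hj hj0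
      exact absurd (Int.natAbs_eq_zero.mp (h5 _ j hj rfl)) hj0
    · intro h
      exact absurd h0 h
  · rw [Finset.sum_eq_zero]
    · rw [Finsupp.notMem_support_iff.mp h0, AddMonoidAlgebra.single_zero]
    · intro j hj
      have h9 := Int.natAbs_eq_zero.mp (h5 _ j hj rfl)
      rw [h9] at hj
      exact absurd hj h0

theorem const_hom {k : Type} [Field k] [Finite k] {B : Type} [CommRing B]
    (φ : k →+* LaurentPolynomial B) : ∃ φ0 : k →+* B, φ = LaurentPolynomial.C.comp φ0 := by
  have := Fintype.ofFinite k
  let g : LaurentPolynomial B →+* B :=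
    AddMonoidAlgebra.liftNCRingHom (RingHom.id _) 1 (fun _ _ => Commute.all _ _)
  have hg : ∀ b : B, g (LaurentPolynomial.C b) = b := by
    intro b
    change AddMonoidAlgebra.liftNCRingHom _ _ _ (AddMonoidAlgebra.single 0 b) = b
    rw [AddMonoidAlgebra.liftNCRingHom_single]
    simp
  obtain ⟨p, hp⟩ := CharP.exists k
  have hpr : Fact p.Prime := ⟨CharP.char_is_prime k p⟩
  obtain ⟨r, -, hr⟩ := FiniteField.card k p
  rcases subsingleton_or_nontrivial (LaurentPolynomial B) with hs | hn
  · exact ⟨g.comp φ, RingHom.ext fun x => Subsingleton.elim _ _⟩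
  · have hch : CharP (LaurentPolynomial B) p := charP_of_injective_ringHom φ.injective p
    refine ⟨g.comp φ, RingHom.ext fun x => ?_⟩
    obtain ⟨b, hb⟩ := const_of_pow (p := p) (r := r) r.pos (φ x) (by
      rw [← map_pow, ← hr, FiniteField.pow_card])
    change φ x = LaurentPolynomial.C (g (φ x))
    rw [hb, hg]

end const

section ring

variable {k : Type} [Field k] [Finite k] {P : Sch k → Prop} (hP : Bnd True P)

/-- the property for all structures of a `k`-algebra -/
def FR (P : Sch k → Prop) (B : Type) [CommRing B] : Prop :=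
  ∀ φ : k →+* B, P (@aff k B _ _ φ.toAlgebra)

theorem ftk {B : Type} [CommRing B] [Algebra k B] [Algebra.FiniteType ℤ B] :
    Algebra.FiniteType k B := by
  have : IsScalarTower ℤ k B := inferInstance
  exact Algebra.FiniteType.of_restrictScalars_finiteType ℤ k B

include hP

theorem good_ring (h1 : ∀ (A : Type) [CommRing A] [Algebra k A] [Algebra.FiniteType k A],
    ringKrullDim A ≤ 1 → P (aff k A)) : Good (FR P) 1 where
  iso A B _ _ hA e h := by
    intro φ
    let _ := φ.toAlgebra
    let _ : Algebra k A := ((e.symm : B →+* A).comp φ).toAlgebra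
    have := ftk (k := k) (B := A)
    have e' : A ≃ₐ[k] B := AlgEquiv.ofRingEquiv (f := e) (fun x => by
      change e (e.symm (φ x)) = φ x
      exact e.apply_symm_apply _)
    exact s_iso hP A B e' (h _)
  glue B _ _ c h1 h2 := by
    intro φ
    let _ := φ.toAlgebra
    have := ftk (k := k) (B := B)
    refine s_glue hP B c ?_ ?_
    · exact h1 ((Ideal.Quotient.mk _).comp φ)
    · have h3 := h2 ((algebraMap B (Localization.Away c)).comp φ)
      have h5 : RingHom.FiniteType φ := this
      have h6 : RingHom.FiniteType (algebraMap B (Localization.Away c)) :=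
        RingHom.finiteType_algebraMap.mpr inferInstance
      have h4 : RingHom.FiniteType ((algebraMap B (Localization.Away c)).comp φ) := h6.comp h5
      have e : @AlgEquiv k (Localization.Away c) (Localization.Away c) _ _ _
          ((algebraMap B (Localization.Away c)).comp φ).toAlgebra _ :=
        @AlgEquiv.ofRingEquiv k (Localization.Away c) (Localization.Away c) _ _ _
          ((algebraMap B (Localization.Away c)).comp φ).toAlgebra _ (RingEquiv.refl _) (fun x => by
            rw [IsScalarTower.algebraMap_apply k B (Localization.Away c)]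
            rfl)
      exact @s_iso k _ P hP _ _ _ _ ((algebraMap B (Localization.Away c)).comp φ).toAlgebra _ h4 e h3
  laurent A _ _ h := by
    intro φ
    obtain ⟨φ0, rfl⟩ := const_hom φ
    let _ := φ0.toAlgebra
    have := ftk (k := k) (B := A)
    exact s_laurent hP A (h φ0)
  dim A _ _ hA := by
    intro φ
    let _ := φ.toAlgebra
    have := ftk (k := k) (B := A)
    exact h1 A hA

end ring

end Pool.Agent.E8helper74.FQ
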