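import Mathlib

/-!
# Adjoining roots of finitely many elements
-/

set_option autoImplicit false

open Polynomial

namespace Pool.Agent.E8helper74.FQ

/-- A property of algebras of finite type over `k` which is closed under closed-open decompositions, under
passing to `A[t, 1/t]`, and descends from finite free extensions. -/
structure GoodF (k : Type) [Field k] (F : ∀ (B : Type) [CommRing B] [Algebra k B], Prop) : Prop where
  iso : ∀ (A B : Type) [CommRing A] [CommRing B] [Algebra k A] [Algebra k B]
    [Algebra.FiniteType k A], (A ≃ₐ[k] B) → F A → F B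
  glue : ∀ (B : Type) [CommRing B] [Algebra k B] [Algebra.FiniteType k B] (c : B),
    F (B ⧸ Ideal.span {c}) → F (Localization.Away c) → F B
  laurent : ∀ (A : Type) [CommRing A] [Algebra k A] [Algebra.FiniteType k A],
    F A → F (LaurentPolynomial A)
  cover : ∀ (A B : Type) [CommRing A] [CommRing B] [Algebra k A] [Algebra k B] [Algebra A B]
    [IsScalarTower k A B] [Algebra.FiniteType k A] [Module.Free A B] [Module.Finite A B],
    Function.Injective (algebraMap A B) → F B → F A

theorem of_inj {R : Type} [CommRing R] {N : ℕ} (hN : 0 < N) (u : R) :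
    Function.Injective (AdjoinRoot.of (X ^ N - C u)) := by
  nontriviality R
  have hm : (X ^ N - C u : R[X]).Monic := monic_X_pow_sub_C u hN.ne'
  rw [injective_iff_map_eq_zero]
  intro p hp
  rw [AdjoinRoot.of, RingHom.comp_apply, AdjoinRoot.mk_eq_zero] at hp
  by_contra hne
  refine hm.not_dvd_of_natDegree_lt (C_ne_zero.mpr hne) ?_ hp
  rw [natDegree_C, natDegree_X_pow_sub_C]
  exact hN

/-- the universal extension of `B` in which the elements `u i` have `N`-th roots -/
theorem cover_all {k : Type} [Field k] {F : ∀ (B : Type) [CommRing B] [Algebra k B], Prop}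
    (hF : GoodF k F) {N : ℕ} (hN : 0 < N) : ∀ (q : ℕ) (B : Type) [CommRing B] [Algebra k B]
    [Algebra.FiniteType k B] (u : Fin q → B),
    ∃ (D : Type) (_ : CommRing D) (_ : Algebra k D) (φ : B →ₐ[k] D) (τ : Fin q → D),
      Algebra.FiniteType k D ∧ (∀ i, τ i ^ N = φ (u i)) ∧
      (∀ (E : Type) [CommRing E] (g : B →+* E) (s : Fin q → E), (∀ i, s i ^ N = g (u i)) →
        ∃ G : D →+* E, G.comp (φ : B →+* D) = g ∧ ∀ i, G (τ i) = s i) ∧
      (∀ (E : Type) [CommRing E] (g1 g2 : D →+* E), g1.comp (φ : B →+* D) = g2.comp (φ : B →+* D) →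
        (∀ i, g1 (τ i) = g2 (τ i)) → g1 = g2) ∧
      (F D → F B) := by
  intro q
  induction q with
  | zero =>
    intro B _ _ hB u
    refine ⟨B, inferInstance, inferInstance, AlgHom.id k B, fun i => i.elim0, hB,
      fun i => i.elim0, ?_, ?_, fun h => h⟩
    · intro E _ g s _
      exact ⟨g, rfl, fun i => i.elim0⟩
    · intro E _ g1 g2 h _
      exact h
  | succ q ih =>
    intro B _ _ hB u
    let f : B[X] := X ^ N - C (u 0)
    have hm : f.Monic := monic_X_pow_sub_C (u 0) hN.ne'
    let B1 := AdjoinRoot f
    have hfree : Module.Free B B1 := hm.free_adjoinRoot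
    have hfin : Module.Finite B B1 := hm.finite_adjoinRoot
    have hft : Algebra.FiniteType k B1 := Algebra.FiniteType.trans (S := B) hB inferInstance
    obtain ⟨D, _, _, φ, τ, hD, h1, h2, h3, h4⟩ := ih B1 (fun i => algebraMap B B1 (u i.succ))
    let φ' : B →ₐ[k] D := φ.comp (IsScalarTower.toAlgHom k B B1)
    have hφ' : ∀ b : B, φ' b = φ (AdjoinRoot.of f b) := fun b => rfl
    have hr : (AdjoinRoot.root f) ^ N = AdjoinRoot.of f (u 0) := by
      have h5 := AdjoinRoot.eval₂_root f
      rw [eval₂_sub, eval₂_pow, eval₂_X, eval₂_C, sub_eq_zero] at h5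
      exact h5
    refine ⟨D, inferInstance, inferInstance, φ', Fin.cons (φ (AdjoinRoot.root f)) τ, hD, ?_, ?_,
      ?_, ?_⟩
    · intro i
      refine Fin.cases ?_ (fun i => ?_) i
      · rw [Fin.cons_zero, hφ', ← hr, map_pow]
      · rw [Fin.cons_succ, h1]
        rfl
    · intro E _ g s hs
      have h5 : f.eval₂ g (s 0) = 0 := by
        rw [eval₂_sub, eval₂_pow, eval₂_X, eval₂_C, hs 0, sub_self]
      let g1 : B1 →+* E := AdjoinRoot.lift g (s 0) h5
      obtain ⟨G, hG1, hG2⟩ := h2 E g1 (fun i => s i.succ) (fun i => by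
        rw [hs i.succ]
        exact (AdjoinRoot.lift_of h5).symm)
      refine ⟨G, ?_, ?_⟩
      · ext b
        rw [RingHom.comp_apply]
        change G (φ (AdjoinRoot.of f b)) = g b
        have h6 := RingHom.congr_fun hG1 (AdjoinRoot.of f b)
        rw [RingHom.comp_apply] at h6
        rw [← AdjoinRoot.lift_of (i := g) (a := s 0) h5 (x := b)]
        exact h6
      · intro i
        refine Fin.cases ?_ (fun i => ?_) i
        · rw [Fin.cons_zero]
          have h6 := RingHom.congr_fun hG1 (AdjoinRoot.root f)
          rw [RingHom.comp_apply] at h6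
          rw [← AdjoinRoot.lift_root (i := g) (a := s 0) h5]
          exact h6
        · rw [Fin.cons_succ]
          exact hG2 i
    · intro E _ g1 g2 hg hs
      refine h3 E g1 g2 ?_ ?_
      · refine AdjoinRoot.ringHom_ext ?_ ?_
        · ext b
          have h6 := RingHom.congr_fun hg b
          exact h6
        · have h6 := hs 0
          rw [Fin.cons_zero] at h6
          exact h6
      · intro i
        have h6 := hs i.succ
        rw [Fin.cons_succ] at h6
        exact h6
    · intro h
      exact hF.cover B B1 (of_inj hN (u 0)) (h4 h)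

end Pool.Agent.E8helper74.FQ
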