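import Pool.Agent.E8helper74.FQ.Poly

/-!
# Polynomials with dependent exponents
-/

set_option autoImplicit false
set_option linter.unusedSectionVars false

open MvPolynomial Pool.Agent.E8helper74.BA

attribute [local instance] Classical.propDecidable

namespace Pool.Agent.E8helper74.FQ

theorem exists_int {ι : Type} [Fintype ι] (q : ι → ℚ) :
    ∃ (d : ℚ) (z : ι → ℤ), d ≠ 0 ∧ ∀ i, (z i : ℚ) = d * q i := by
  let N : ℕ := ∏ i, (q i).den
  have hN : 0 < N := Finset.prod_pos fun i _ => (q i).den_pos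
  have key : ∀ i, ∃ z : ℤ, (z : ℚ) = (N : ℚ) * q i := by
    intro i
    obtain ⟨t, ht⟩ : (q i).den ∣ N := Finset.dvd_prod_of_mem (fun i => (q i).den) (Finset.mem_univ i)
    refine ⟨t * (q i).num, ?_⟩
    rw [ht]
    push_cast
    have h2 : ((q i).den : ℚ) * q i = (q i).num := by
      rw [mul_comm]
      exact Rat.mul_den_eq_num (q i)
    calc (t : ℚ) * (q i).num = t * ((q i).den * q i) := by rw [h2]
      _ = (q i).den * t * q i := by ring
  choose z hz using key
  exact ⟨N, z, by exact_mod_cast hN.ne', hz⟩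

theorem newton_dep {A : Type} [CommRing A] {σ : Type} [Fintype σ] (g : MvPolynomial σ A)
    (h : ¬ LinearIndependent ℚ (cay fun _ : Fin 1 => g)) : newtonDim g ≤ g.support.card - 2 := by
  rw [Fintype.not_linearIndependent_iff] at h
  obtain ⟨q, hq, ⟨x1, hx1⟩⟩ := h
  obtain ⟨d, z, hd, hz⟩ := exists_int q
  obtain ⟨l1, m1⟩ := x1
  have hl1 : l1 = 0 := Subsingleton.elim _ _
  subst hl1
  let Z : g.support → ℤ := fun m => z ⟨0, m⟩
  have hZ1 : Z m1 ≠ 0 := by
    intro h0
    have h1 := hz ⟨0, m1⟩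
    change ((Z m1 : ℤ) : ℚ) = _ at h1
    rw [h0, Int.cast_zero, eq_comm, mul_eq_zero] at h1
    rcases h1 with h1 | h1
    · exact hd h1
    · exact hx1 h1
  have hsum : ∀ (φ : (Fin 1 → ℚ) × (σ → ℚ) →ₗ[ℚ] ℚ),
      ∑ m : g.support, (Z m : ℚ) * φ (cay (fun _ : Fin 1 => g) ⟨0, m⟩) = 0 := by
    intro φ
    have h1 := congrArg φ hq
    rw [map_sum, map_zero, Fintype.sum_sigma, Fin.sum_univ_one] at h1
    simp only [map_smul, smul_eq_mul] at h1
    have h2 := congrArg (fun t => d * t) h1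
    simp only [mul_zero, Finset.mul_sum] at h2
    rw [← h2]
    apply Finset.sum_congr rfl
    intro m _
    change (z ⟨0, m⟩ : ℚ) * _ = _
    rw [hz]
    ring
  have h0 : ∑ m : g.support, Z m = 0 := by
    have h1 := hsum ((LinearMap.proj 0).comp (LinearMap.fst ℚ _ _))
    have h2 : ∑ m : g.support, (Z m : ℚ) = 0 := by
      rw [← h1]
      apply Finset.sum_congr rfl
      intro m _
      have h3 : (cay (fun _ : Fin 1 => g) ⟨0, m⟩).1 0 = 1 := by
        unfold cay
        exact if_pos rfl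
      change _ = (Z m : ℚ) * (cay (fun _ : Fin 1 => g) ⟨0, m⟩).1 0
      rw [h3, mul_one]
    exact_mod_cast h2
  have hj : ∀ j : σ, ∑ m : g.support, Z m * (((m : σ →₀ ℕ) j : ℕ) : ℤ) = 0 := by
    intro j
    have h1 := hsum ((LinearMap.proj j).comp (LinearMap.snd ℚ _ _))
    have h2 : ∑ m : g.support, (Z m : ℚ) * (((m : σ →₀ ℕ) j : ℕ) : ℚ) = 0 := h1
    exact_mod_cast h2
  obtain ⟨m0, hm0⟩ : ∃ m0 : g.support, m0 ≠ m1 := by
    by_contra hcon
    push Not at hcon
    rw [Finset.sum_eq_single m1 (fun b _ hb => absurd (hcon b) hb)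
      (fun h => absurd (Finset.mem_univ _) h)] at h0
    exact hZ1 h0
  let dv : g.support → (σ → ℤ) := fun m => fun i => (((m : σ →₀ ℕ) i : ℕ) : ℤ) -
    (((m0 : σ →₀ ℕ) i : ℕ) : ℤ)
  let s : Finset (σ → ℤ) := ((Finset.univ.erase m0).erase m1).image dv
  let D' := Submodule.span ℤ (s : Set (σ → ℤ))
  have hs : s.card ≤ g.support.card - 2 := by
    refine Finset.card_image_le.trans ?_
    rw [Finset.card_erase_of_mem (Finset.mem_erase.mpr ⟨hm0.symm, Finset.mem_univ _⟩),
      Finset.card_erase_of_mem (Finset.mem_univ _), Finset.card_univ, Fintype.card_coe]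
    omega
  have hoth : ∀ m, m ≠ m1 → dv m ∈ D' := by
    intro m hm
    by_cases hm' : m = m0
    · subst hm'
      have : dv m = 0 := by
        funext i
        exact sub_self _
      rw [this]
      exact zero_mem _
    · exact Submodule.subset_span (Finset.mem_coe.mpr (Finset.mem_image_of_mem _
        (Finset.mem_erase.mpr ⟨hm, Finset.mem_erase.mpr ⟨hm', Finset.mem_univ _⟩⟩)))
  have hm1 : Z m1 • dv m1 ∈ D' := by
    have h2 : ∑ m : g.support, Z m • dv m = 0 := by
      funext j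
      rw [Finset.sum_apply]
      change ∑ m : g.support, Z m * ((((m : σ →₀ ℕ) j : ℕ) : ℤ) - (((m0 : σ →₀ ℕ) j : ℕ) : ℤ)) = 0
      simp only [mul_sub, Finset.sum_sub_distrib, ← Finset.sum_mul]
      rw [hj, h0, zero_mul, sub_zero]
    rw [← Finset.add_sum_erase _ _ (Finset.mem_univ m1)] at h2
    have h3 : Z m1 • dv m1 = -∑ m ∈ Finset.univ.erase m1, Z m • dv m :=
      eq_neg_of_add_eq_zero_left h2
    rw [h3]
    refine neg_mem (sum_mem fun m hm => ?_)
    exact Submodule.smul_mem _ _ (hoth m (Finset.ne_of_mem_erase hm))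
  have hall : ∀ m, Z m1 • dv m ∈ D' := by
    intro m
    by_cases hm : m = m1
    · subst hm
      exact hm1
    · exact Submodule.smul_mem _ _ (hoth m hm)
  unfold newtonDim
  have hD : ∀ v ∈ Submodule.span ℤ {d : σ → ℤ | ∃ m ∈ g.support, ∃ m' ∈ g.support,
      d = fun i => (m i : ℤ) - (m' i : ℤ)}, Z m1 • v ∈ D' := by
    intro v hv
    induction hv using Submodule.span_induction with
    | mem x hx =>
      obtain ⟨m, hm, m', hm', rfl⟩ := hx
      have h4 := sub_mem (hall ⟨m, hm⟩) (hall ⟨m', hm'⟩)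
      rw [← smul_sub] at h4
      have h5 : dv ⟨m, hm⟩ - dv ⟨m', hm'⟩ = fun i => (m i : ℤ) - (m' i : ℤ) := by
        funext i
        change ((m i : ℤ) - _) - ((m' i : ℤ) - _) = _
        ring
      rwa [h5] at h4
    | zero =>
      rw [smul_zero]
      exact zero_mem _
    | add x y _ _ hx hy =>
      rw [smul_add]
      exact add_mem hx hy
    | smul a x _ hx =>
      rw [smul_comm]
      exact Submodule.smul_mem _ _ hx
  let L : Submodule.span ℤ {d : σ → ℤ | ∃ m ∈ g.support, ∃ m' ∈ g.support,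
      d = fun i => (m i : ℤ) - (m' i : ℤ)} →ₗ[ℤ] D' :=
    { toFun := fun v => ⟨Z m1 • (v : σ → ℤ), hD v v.2⟩
      map_add' := fun v w => Subtype.ext (smul_add _ _ _)
      map_smul' := fun a v => Subtype.ext (smul_comm _ _ _) }
  have hL : Function.Injective L := by
    intro v w hvw
    have h6 : Z m1 • (v : σ → ℤ) = Z m1 • (w : σ → ℤ) := Subtype.ext_iff.mp hvw
    exact Subtype.ext (smul_right_injective _ hZ1 h6)
  have hfin : Module.Finite ℤ D' := Module.Finite.span_finset ℤ s
  exact (LinearMap.finrank_le_finrank_of_injective hL).trans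
    ((finrank_span_finset_le_card s).trans hs)

end Pool.Agent.E8helper74.FQ
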