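import Pool.Agent.E8helper74.FQ.Theta

/-!
# The dimension of the part of degree zero
-/

set_option autoImplicit false
set_option linter.unusedSectionVars false

open MvPolynomial Pool.Agent.E8helper74.BA

attribute [local instance] Classical.propDecidable

namespace Pool.Agent.E8helper74.FQ

section L

variable {A : Type} [CommRing A] {σ κ : Type} [Fintype σ] [Fintype κ] (n : κ → ℕ)
  (a : κ → ℕ → (σ →₀ ℕ)) (c : κ → ℕ → A) (B : Type) [CommRing B] [Algebra (MvPolynomial σ A) B]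

/-- the differences of the exponents of the surviving terms of the relations -/
def dif : Set (HH n a c B) :=
  {d | ∃ l i, i < n l ∧
    ((UU n a c B l i ∧ UU n a c B l (i + 1) ∧ d = es n a c B l i - es n a c B l (i + 1)) ∨
    (uT a c B l i ∧ UU n a c B l (i + 1) ∧ d = ev n a c B l i - es n a c B l (i + 1)) ∨
    (uT a c B l i ∧ UU n a c B l i ∧ d = ev n a c B l i - es n a c B l i))}

end L

section dim

variable {k : Type} [Field k] {A : Type} [CommRing A] [Algebra k A] {σ κ : Type} [Fintype σ]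
  [Fintype κ] (n : κ → ℕ) (a : κ → ℕ → (σ →₀ ℕ)) (c : κ → ℕ → A)
  (B : Type) [CommRing B] [Algebra (MvPolynomial σ A) B]
  (D : Type) [CommRing D] [Algebra k D] (ψ : B →+* D) (φ : A →+* D) {m r N : ℕ}
  (ρ : HH n a c B →+ (Fin m ⊕ Fin m → ℤ)) (p : HH n a c B →+ (Fin r → ℤ))
  (s : (Fin r → ℤ) →+ HH n a c B)
  (U : Fin m ⊕ Fin m → Dˣ) (hk : ∀ x : k, algebraMap k D x = φ (algebraMap k A x))
  (e : Tri n a c B ≃ Fin m)
  (hD : Dat n a c B D ψ φ (N := N) ρ p s U e)
  (hB : IsStratum (Ideal.span (Set.range fun l => ps a c l (n l)))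
  (fns n a c : Set (MvPolynomial σ A)) B) [Nontrivial B]

include hD hB

theorem chi_d0 (l : κ) (i : ℕ) (hi : i < n l) (h0 : UU n a c B l i) (h1 : UU n a c B l (i + 1)) :
    chi n a c B D ψ ρ U (es n a c B l i - es n a c B l (i + 1)) = 1 := by
  have hrB := (sol_B n a c B hB B (RingHom.id B)).rel l i hi
  rw [sv_eq, sv_eq] at hrB
  unfold tv at hrB
  by_cases hT : uT a c B l i
  · let x : Tri n a c B := ⟨⟨l, ⟨i, hi⟩⟩, h0, h1, hT⟩
    have e0 := chi_mul n a c B D ψ ρ U (es n a c B x.1.1 x.1.2 - es n a c B x.1.1 (x.1.2 + 1))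
    rw [hD.r0, pm_yv, ← hD.u0] at e0
    exact ((U (Sum.inl (e x))).isUnit.pow N).mul_right_cancel (e0.trans (one_mul _).symm)
  · rw [if_pos h1, if_pos h0, if_neg hT, add_zero] at hrB
    unfold chi
    rw [hD.r2 l i hi h0 h1 hT, neg_zero, (isMon_pm U).zero, mul_one, ← map_one ψ]
    congr 1
    refine (mon_unit (isMon_mo n a c B) (es n a c B l (i + 1))).mul_right_cancel ?_
    rw [← (isMon_mo n a c B).add, sub_add_cancel, one_mul]
    exact hrB.symm

theorem chi_d1 (l : κ) (i : ℕ) (hi : i < n l) (hT : uT a c B l i) (h1 : UU n a c B l (i + 1)) :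
    φ (c l i) * chi n a c B D ψ ρ U (ev n a c B l i - es n a c B l (i + 1)) = 1 := by
  have hrB := (sol_B n a c B hB B (RingHom.id B)).rel l i hi
  rw [sv_eq, sv_eq] at hrB
  unfold tv at hrB
  by_cases h0 : UU n a c B l i
  · let x : Tri n a c B := ⟨⟨l, ⟨i, hi⟩⟩, h0, h1, hT⟩
    have e0 := chi_mul n a c B D ψ ρ U (ev n a c B x.1.1 x.1.2 - es n a c B x.1.1 (x.1.2 + 1))
    rw [hD.r1, pm_yv] at e0
    refine ((U (Sum.inr (e x))).isUnit.pow N).mul_right_cancel ?_
    rw [mul_assoc]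
    change φ (c x.1.1 x.1.2) * _ = _
    rw [e0, one_mul, ← hD.u1]
  · rw [if_pos h1, if_neg h0, if_pos hT, zero_add] at hrB
    unfold chi
    rw [hD.r3 l i hi h0 h1 hT, neg_zero, (isMon_pm U).zero, mul_one, hD.hφ, ← map_mul, ← map_one ψ]
    congr 1
    refine (mon_unit (isMon_mo n a c B) (es n a c B l (i + 1))).mul_right_cancel ?_
    rw [mul_assoc, ← (isMon_mo n a c B).add, sub_add_cancel, one_mul]
    exact hrB.symm

theorem chi_d2 (l : κ) (i : ℕ) (hi : i < n l) (hT : uT a c B l i) (h0 : UU n a c B l i)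
    (h1 : ¬ UU n a c B l (i + 1)) :
    φ (c l i) * chi n a c B D ψ ρ U (ev n a c B l i - es n a c B l i) = -1 := by
  have hrB := (sol_B n a c B hB B (RingHom.id B)).rel l i hi
  rw [sv_eq, sv_eq] at hrB
  unfold tv at hrB
  rw [if_neg h1, if_pos h0, if_pos hT] at hrB
  unfold chi
  rw [hD.r4 l i hi h0 h1 hT, neg_zero, (isMon_pm U).zero, mul_one, hD.hφ, ← map_mul, ← map_one ψ,
    ← map_neg]
  congr 1
  refine (mon_unit (isMon_mo n a c B) (es n a c B l i)).mul_right_cancel ?_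
  rw [mul_assoc, ← (isMon_mo n a c B).add, sub_add_cancel, neg_mul, one_mul,
    eq_neg_iff_add_eq_zero, add_comm]
  exact hrB.symm

theorem phE_unit (l : κ) (i : ℕ) (hi : i < n l) (hT : uT a c B l i) :
    IsUnit (phE n a c B D ψ φ ρ p U hk (c l i)) := by
  have h1 : IsUnit (φ (c l i)) := by
    rw [hD.hφ]
    exact ((uT_iff n a c B l i).mp hT).2.map ψ
  have h2 : phE n a c B D ψ φ ρ p U hk (c l i) * ciE n a c B D ψ φ ρ p U hk ⟨l, ⟨i, hi⟩⟩ = 1 := by
    apply Subtype.ext
    change (phE n a c B D ψ φ ρ p U hk (c l i) : D) *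
      (ciE n a c B D ψ φ ρ p U hk ⟨l, ⟨i, hi⟩⟩ : D) = 1
    rw [phE_val, ciE_val]
    exact cinv_mul n c D φ ⟨l, ⟨i, hi⟩⟩ h1
  exact IsUnit.of_mul_eq_one _ h2

omit [Nontrivial B] hD hB in
theorem chi_neg (v : HH n a c B) :
    chi n a c B D ψ ρ U (-v) * chi n a c B D ψ ρ U v = 1 := by
  rw [← (isMon_chi n a c B D ψ ρ U).add, neg_add_cancel, (isMon_chi n a c B D ψ ρ U).zero]

/-- the exponents `v` such that `chi v` is a quotient of coefficients -/
noncomputable def TS : AddSubgroup (HH n a c B) where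
  carrier := {v | ∃ q1 q2 : A, IsUnit (phE n a c B D ψ φ ρ p U hk q1) ∧
    IsUnit (phE n a c B D ψ φ ρ p U hk q2) ∧ chi n a c B D ψ ρ U v * φ q2 = φ q1}
  zero_mem' := ⟨1, 1, by rw [map_one]; exact isUnit_one, by rw [map_one]; exact isUnit_one, by
    rw [(isMon_chi n a c B D ψ ρ U).zero, one_mul]⟩
  add_mem' := by
    rintro v w ⟨q1, q2, h1, h2, h3⟩ ⟨q1', q2', h1', h2', h3'⟩
    refine ⟨q1 * q1', q2 * q2', ?_, ?_, ?_⟩
    · rw [map_mul]
      exact h1.mul h1'
    · rw [map_mul]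
      exact h2.mul h2'
    · rw [map_mul, map_mul, (isMon_chi n a c B D ψ ρ U).add, ← h3, ← h3']
      ring
  neg_mem' := by
    rintro v ⟨q1, q2, h1, h2, h3⟩
    refine ⟨q2, q1, h2, h1, ?_⟩
    rw [← h3, ← mul_assoc, chi_neg, one_mul]

theorem dif_le : AddSubgroup.closure (dif n a c B) ≤ TS n a c B D ψ φ ρ p U hk := by
  rw [AddSubgroup.closure_le]
  have h01 : ∀ l i, i < n l → UU n a c B l i → UU n a c B l (i + 1) →
      es n a c B l i - es n a c B l (i + 1) ∈ TS n a c B D ψ φ ρ p U hk := by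
    intro l i hi h0 h1
    refine ⟨1, 1, by rw [map_one]; exact isUnit_one, by rw [map_one]; exact isUnit_one, ?_⟩
    rw [chi_d0 n a c B D ψ φ ρ p s U e hD hB l i hi h0 h1, one_mul]
  have h11 : ∀ l i, i < n l → uT a c B l i → UU n a c B l (i + 1) →
      ev n a c B l i - es n a c B l (i + 1) ∈ TS n a c B D ψ φ ρ p U hk := by
    intro l i hi hT h1
    refine ⟨1, c l i, by rw [map_one]; exact isUnit_one,
      phE_unit n a c B D ψ φ ρ p s U hk e hD hB l i hi hT, ?_⟩
    rw [mul_comm, chi_d1 n a c B D ψ φ ρ p s U e hD hB l i hi hT h1, map_one]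
  rintro d ⟨l, i, hi, ⟨h0, h1, rfl⟩ | ⟨hT, h1, rfl⟩ | ⟨hT, h0, rfl⟩⟩
  · exact h01 l i hi h0 h1
  · exact h11 l i hi hT h1
  · by_cases h1 : UU n a c B l (i + 1)
    · have h3 := sub_mem (h11 l i hi hT h1) (h01 l i hi h0 h1)
      rwa [sub_sub_sub_cancel_right] at h3
    · refine ⟨-1, c l i, ?_, phE_unit n a c B D ψ φ ρ p s U hk e hD hB l i hi hT, ?_⟩
      · rw [map_neg, map_one]
        exact isUnit_one.neg
      · rw [mul_comm, chi_d2 n a c B D ψ φ ρ p s U e hD hB l i hi hT h0 h1, map_neg, map_one]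

theorem dim_EE (hp : ∀ v, p v = 0 → ∃ t : ℕ, 0 < t ∧ t • v ∈ AddSubgroup.closure (dif n a c B)) :
    ringKrullDim (EE n a c B D ψ φ ρ p U hk) ≤ ringKrullDim A := by
  let G : Set (EE n a c B D ψ φ ρ p U hk) := (Set.range (phE n a c B D ψ φ ρ p U hk) ∪
    Set.range (ciE n a c B D ψ φ ρ p U hk)) ∪ Set.range (chE n a c B D ψ φ ρ p U hk)
  refine dim_gen (phE n a c B D ψ φ ρ p U hk) G ?_ ?_
  · rw [eq_top_iff]
    rintro x -
    obtain ⟨y, rfl⟩ := Ps_surj n a c B D ψ φ ρ p U hk x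
    have hpol : ∀ z : MvPolynomial (Σ l : κ, Fin (n l)) A,
        Ps n a c B D ψ φ ρ p U hk (AddMonoidAlgebra.single 0 z) ∈ Subring.closure G := by
      intro z
      induction z using MvPolynomial.induction_on with
      | C x => exact Subring.subset_closure (Or.inl (Or.inl ⟨x, rfl⟩))
      | add z w hz hw =>
        rw [AddMonoidAlgebra.single_add, map_add]
        exact add_mem hz hw
      | mul_X z j hz =>
        have h1 : (AddMonoidAlgebra.single 0 (z * X j) : QQ n a c B p) =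
            AddMonoidAlgebra.single 0 z * AddMonoidAlgebra.single 0 (X j) := by
          rw [AddMonoidAlgebra.single_mul_single, add_zero]
        rw [h1, map_mul]
        exact mul_mem hz (Subring.subset_closure (Or.inl (Or.inr ⟨j, rfl⟩)))
    induction y using AddMonoidAlgebra.induction_on with
    | of v => exact Subring.subset_closure (Or.inr ⟨v, rfl⟩)
    | add x y hx hy =>
      rw [map_add]
      exact add_mem hx hy
    | smul z x hx =>
      have h1 : z • x = AddMonoidAlgebra.single 0 z * x := by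
        rw [Algebra.smul_def]
        rfl
      rw [h1, map_mul]
      exact mul_mem (hpol z) hx
  · rintro g ((⟨x, rfl⟩ | ⟨j, rfl⟩) | ⟨v, rfl⟩)
    · refine ⟨1, x, 1, one_pos, ?_, ?_⟩
      · rw [map_one]
        exact isUnit_one
      · rw [map_one, mul_one, pow_one]
    · by_cases h : IsUnit (φ (c j.1 j.2))
      · have h4 : phE n a c B D ψ φ ρ p U hk (c j.1 j.2) * ciE n a c B D ψ φ ρ p U hk j = 1 := by
          apply Subtype.ext
          change (phE n a c B D ψ φ ρ p U hk (c j.1 j.2) : D) *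
            (ciE n a c B D ψ φ ρ p U hk j : D) = 1
          rw [phE_val, ciE_val]
          exact cinv_mul n c D φ j h
        refine ⟨1, 1, c j.1 j.2, one_pos, IsUnit.of_mul_eq_one _ h4, ?_⟩
        rw [pow_one, map_one, mul_comm, h4]
      · have h3 : ciE n a c B D ψ φ ρ p U hk j = 0 := by
          apply Subtype.ext
          rw [ciE_val]
          unfold cinv
          rw [dif_neg h]
          rfl
        refine ⟨1, 0, 1, one_pos, ?_, ?_⟩
        · rw [map_one]
          exact isUnit_one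
        · rw [h3, map_one, map_zero, mul_one, pow_one]
    · obtain ⟨t, ht, htv⟩ := hp v v.2
      obtain ⟨q1, q2, -, h2, h3⟩ := dif_le n a c B D ψ φ ρ p s U hk e hD hB htv
      refine ⟨t, q1, q2, ht, h2, Subtype.ext ?_⟩
      change (chE n a c B D ψ φ ρ p U hk v : D) ^ t * (phE n a c B D ψ φ ρ p U hk q2 : D) =
        (phE n a c B D ψ φ ρ p U hk q1 : D)
      rw [chE_val, phE_val, phE_val, ← h3, (isMon_chi n a c B D ψ ρ U).nsmul]

end dim

end Pool.Agent.E8helper74.FQ
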