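import Pool.Agent.E8helper74.BA.Tor

/-!
# Products of open Fermat curves
-/

set_option autoImplicit false

open Pool.Agent.E8helper74.BA

namespace Pool.Agent.E8helper74.FQ

/-- exponents -/
def yv {m : ℕ} (δ : Fin m ⊕ Fin m) (x : ℤ) : Fin m ⊕ Fin m → ℤ := Pi.single δ x

theorem yv_same {m : ℕ} (δ : Fin m ⊕ Fin m) (x : ℤ) : yv δ x δ = x := Pi.single_eq_same _ _

theorem yv_ne {m : ℕ} {δ j : Fin m ⊕ Fin m} (h : j ≠ δ) (x : ℤ) : yv δ x j = 0 :=
  Pi.single_eq_of_ne h _

theorem yv_nsmul {m : ℕ} (δ : Fin m ⊕ Fin m) (N : ℕ) : yv δ (N : ℤ) = N • yv δ 1 := by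
  funext j
  by_cases h : j = δ
  · subst h
    rw [Pi.smul_apply, yv_same, yv_same]
    simp
  · rw [Pi.smul_apply, yv_ne h, yv_ne h]
    simp

/-- homomorphisms from `E[G]` -/
noncomputable def mLift {E G R : Type} [CommRing E] [AddCommGroup G] [CommRing R] (f : E →+* R)
    {y : G → R} (hy : IsMon y) : AddMonoidAlgebra E G →+* R :=
  AddMonoidAlgebra.liftNCRingHom f
    { toFun := fun v => y v.toAdd
      map_one' := hy.zero
      map_mul' := fun v w => hy.add v.toAdd w.toAdd }
    (fun _ _ => Commute.all _ _)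

theorem mLift_single {E G R : Type} [CommRing E] [AddCommGroup G] [CommRing R] (f : E →+* R)
    {y : G → R} (hy : IsMon y) (v : G) (x : E) :
    mLift f hy (AddMonoidAlgebra.single v x) = f x * y v := by
  unfold mLift
  rw [AddMonoidAlgebra.liftNCRingHom_single]
  rfl

/-- the equation `y^N + z^N = 1` -/
noncomputable def ferRel (E : Type) [CommRing E] (m N : ℕ) (i : Fin m) :
    AddMonoidAlgebra E (Fin m ⊕ Fin m → ℤ) :=
  AddMonoidAlgebra.single (Pi.single (Sum.inl i) (N : ℤ)) 1 +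
    AddMonoidAlgebra.single (Pi.single (Sum.inr i) (N : ℤ)) 1 - 1

/-- The ring `E[y_1^±, z_1^±, ..., y_m^±, z_m^±] / (y_i^N + z_i^N - 1)`. -/
abbrev Fer (E : Type) [CommRing E] (m N : ℕ) : Type :=
  AddMonoidAlgebra E (Fin m ⊕ Fin m → ℤ) ⧸ Ideal.span (Set.range (ferRel E m N))

section

variable {E : Type} [CommRing E] {m N : ℕ} {K : Type} [AddCommGroup K]

/-- the monomials in `y`, `z` -/
noncomputable def fy (y : Fin m ⊕ Fin m → ℤ) : Fer E m N :=
  Ideal.Quotient.mk _ (AddMonoidAlgebra.single y 1)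

theorem isMon_fy : IsMon (fy (E := E) (m := m) (N := N)) where
  zero := by
    unfold fy
    rw [← AddMonoidAlgebra.one_def, map_one]
  add x y := by
    unfold fy
    rw [← map_mul, AddMonoidAlgebra.single_mul_single, one_mul]

theorem fy_rel (i : Fin m) : fy (E := E) (N := N) (yv (Sum.inl i) N) +
    fy (E := E) (N := N) (yv (Sum.inr i) N) = 1 := by
  unfold fy yv
  rw [← map_add, ← sub_eq_zero, ← map_one (Ideal.Quotient.mk _), ← map_sub,
    Ideal.Quotient.eq_zero_iff_mem]
  exact Ideal.subset_span ⟨i, rfl⟩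

/-- homomorphisms from `Fer E m N` -/
noncomputable def ferLift {R : Type} [CommRing R] (f : E →+* R) {y : (Fin m ⊕ Fin m → ℤ) → R}
    (hy : IsMon y) (hr : ∀ i : Fin m, y (yv (Sum.inl i) N) + y (yv (Sum.inr i) N) = 1) :
    Fer E m N →+* R :=
  Ideal.Quotient.lift _ (mLift f hy) (by
      intro x hx
      have hle : Ideal.span (Set.range (ferRel E m N)) ≤ RingHom.ker (mLift f hy) := by
        rw [Ideal.span_le]
        rintro _ ⟨i, rfl⟩
        change mLift f hy (ferRel E m N i) = 0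
        unfold ferRel
        rw [map_sub, map_add, map_one, mLift_single, mLift_single, map_one, one_mul, one_mul,
          sub_eq_zero]
        exact hr i
      exact hle hx)

theorem ferLift_alg {R : Type} [CommRing R] (f : E →+* R) {y : (Fin m ⊕ Fin m → ℤ) → R}
    (hy : IsMon y) (hr : ∀ i : Fin m, y (yv (Sum.inl i) N) + y (yv (Sum.inr i) N) = 1) (x : E) :
    ferLift f hy hr (algebraMap E (Fer E m N) x) = f x := by
  change mLift f hy (AddMonoidAlgebra.single 0 x) = f x
  rw [mLift_single, hy.zero, mul_one]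

theorem ferLift_fy {R : Type} [CommRing R] (f : E →+* R) {y : (Fin m ⊕ Fin m → ℤ) → R}
    (hy : IsMon y) (hr : ∀ i : Fin m, y (yv (Sum.inl i) N) + y (yv (Sum.inr i) N) = 1)
    (v : Fin m ⊕ Fin m → ℤ) : ferLift f hy hr (fy (N := N) v) = y v := by
  change mLift f hy (AddMonoidAlgebra.single v 1) = y v
  rw [mLift_single, map_one, one_mul]

theorem fer_ext {R : Type} [CommRing R] (g1 g2 : Fer E m N →+* R)
    (h1 : ∀ x, g1 (algebraMap E (Fer E m N) x) = g2 (algebraMap E (Fer E m N) x))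
    (h2 : ∀ v, g1 (fy v) = g2 (fy v)) : g1 = g2 := by
  refine Ideal.Quotient.ringHom_ext ?_
  refine AddMonoidAlgebra.ringHom_ext ?_ ?_
  · intro x
    exact h1 x
  · intro v
    exact h2 v

end

end Pool.Agent.E8helper74.FQ
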