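import Pool.Agent.E8helper74.FQ.Theta

/-!
# The covering of a stratum is a product of open Fermat curves, a torus and a scheme of small dimension
-/

set_option autoImplicit false
set_option linter.unusedSectionVars false

open MvPolynomial Pool.Agent.E8helper74.BA

attribute [local instance] Classical.propDecidable

namespace Pool.Agent.E8helper74.FQ

theorem aux1 {W : Type} [CommRing W] {x y z : W} (h1 : x * y = 1) (h2 : x * z = 1) : y = z :=
  (IsUnit.of_mul_eq_one y h1).mul_left_cancel (h1.trans h2.symm)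

theorem aux2 {W : Type} [CommRing W] {x y z : W} (h : z * x = 1) : x * y * z = y := by
  rw [mul_right_comm, mul_comm x z, h, one_mul]

theorem aux3 {W : Type} [CommRing W] {x y z : W} (h : z * x = 1) : y * x * z = y := by
  rw [mul_assoc, mul_comm x z, h, mul_one]

section iso

variable {k : Type} [Field k] {A : Type} [CommRing A] [Algebra k A] {σ κ : Type} [Fintype σ]
  [Fintype κ] (n : κ → ℕ) (a : κ → ℕ → (σ →₀ ℕ)) (c : κ → ℕ → A)
  (B : Type) [CommRing B] [Algebra (MvPolynomial σ A) B]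
  (D : Type) [CommRing D] [Algebra k D] (ψ : B →+* D) (φ : A →+* D) {m r N : ℕ}
  (ρ : HH n a c B →+ (Fin m ⊕ Fin m → ℤ)) (p : HH n a c B →+ (Fin r → ℤ))
  (s : (Fin r → ℤ) →+ HH n a c B)
  (U : Fin m ⊕ Fin m → Dˣ) (hk : ∀ x : k, algebraMap k D x = φ (algebraMap k A x))
  (e : Tri n a c B ≃ Fin m)
  (hD : Dat n a c B D ψ φ (N := N) ρ p s U e)
  (hB : IsStratum (Ideal.span (Set.range fun l => ps a c l (n l)))
  (fns n a c : Set (MvPolynomial σ A)) B) [Nontrivial B]

/-- the ring -/
abbrev WW (N : ℕ) : Type := AddMonoidAlgebra (Fer (EE n a c B D ψ φ ρ p U hk) m N) (Fin r → ℤ)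

/-- the constants -/
noncomputable def iE (N : ℕ) : EE n a c B D ψ φ ρ p U hk →+* WW n a c B D ψ φ ρ p U hk N :=
  AddMonoidAlgebra.singleZeroRingHom.comp
    (algebraMap (EE n a c B D ψ φ ρ p U hk) (Fer (EE n a c B D ψ φ ρ p U hk) m N))

/-- the monomials in `y` and `z` -/
noncomputable def iy (N : ℕ) (y : Fin m ⊕ Fin m → ℤ) : WW n a c B D ψ φ ρ p U hk N :=
  AddMonoidAlgebra.single 0 (fy y)

/-- the monomials of the torus -/
noncomputable def iK (N : ℕ) (x : Fin r → ℤ) : WW n a c B D ψ φ ρ p U hk N :=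
  AddMonoidAlgebra.single x 1

theorem isMon_iy : IsMon (iy n a c B D ψ φ ρ p U hk N) where
  zero := by
    unfold iy
    rw [isMon_fy.zero, ← AddMonoidAlgebra.one_def]
  add x y := by
    unfold iy
    rw [AddMonoidAlgebra.single_mul_single, isMon_fy.add, add_zero]

theorem isMon_iK : IsMon (iK n a c B D ψ φ ρ p U hk N) where
  zero := by
    unfold iK
    rw [← AddMonoidAlgebra.one_def]
  add x y := by
    unfold iK
    rw [AddMonoidAlgebra.single_mul_single, one_mul]

theorem iy_rel (i : Fin m) : iy n a c B D ψ φ ρ p U hk N (yv (Sum.inl i) N) +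
    iy n a c B D ψ φ ρ p U hk N (yv (Sum.inr i) N) = 1 := by
  unfold iy
  rw [← AddMonoidAlgebra.single_add, fy_rel, ← AddMonoidAlgebra.one_def]

include hD hB in
theorem U_rel (i : Fin m) : pm U (yv (Sum.inl i) (N : ℤ)) + pm U (yv (Sum.inr i) (N : ℤ)) = 1 := by
  obtain ⟨x, rfl⟩ := e.surjective i
  rw [pm_yv, pm_yv, hD.u0, hD.u1]
  have hs := sol_B n a c B hB B (RingHom.id B)
  have h1 := hs.rel x.1.1 x.1.2 x.1.2.2
  rw [sv_eq, sv_eq, if_pos x.2.1, if_pos x.2.2.1] at h1
  unfold tv at h1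
  rw [if_pos x.2.2.2] at h1
  have h2 : mo n a c B (es n a c B x.1.1 x.1.2 - es n a c B x.1.1 (x.1.2 + 1)) +
      algebraMap (MvPolynomial σ A) B (C (c x.1.1 x.1.2)) *
        mo n a c B (ev n a c B x.1.1 x.1.2 - es n a c B x.1.1 (x.1.2 + 1)) = 1 := by
    refine (mon_unit (isMon_mo n a c B) (es n a c B x.1.1 (x.1.2 + 1))).mul_right_cancel ?_
    rw [add_mul, mul_assoc, ← (isMon_mo n a c B).add, ← (isMon_mo n a c B).add, sub_add_cancel,
      sub_add_cancel, one_mul]
    exact h1.symm
  rw [hD.hφ, ← map_mul, ← map_add, h2, map_one]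

/-- the map back -/
noncomputable def Xi : WW n a c B D ψ φ ρ p U hk N →+* D :=
  mLift (y := fun x => chi n a c B D ψ ρ U (s x))
    (ferLift ((EE n a c B D ψ φ ρ p U hk).val : EE n a c B D ψ φ ρ p U hk →+* D) (isMon_pm U)
      (U_rel n a c B D ψ φ ρ p s U e hD hB))
    ⟨by rw [map_zero]; exact (isMon_chi n a c B D ψ ρ U).zero, fun x y => by
      rw [map_add]; exact (isMon_chi n a c B D ψ ρ U).add _ _⟩

theorem Xi_iE (x : EE n a c B D ψ φ ρ p U hk) :
    Xi n a c B D ψ φ ρ p s U hk e hD hB (iE n a c B D ψ φ ρ p U hk N x) = x := by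
  unfold Xi iE
  change mLift _ _ (AddMonoidAlgebra.single 0 _) = _
  rw [mLift_single, ferLift_alg, map_zero, (isMon_chi n a c B D ψ ρ U).zero, mul_one]
  rfl

theorem Xi_iy (y : Fin m ⊕ Fin m → ℤ) :
    Xi n a c B D ψ φ ρ p s U hk e hD hB (iy n a c B D ψ φ ρ p U hk N y) = pm U y := by
  unfold Xi iy
  rw [mLift_single, ferLift_fy, map_zero, (isMon_chi n a c B D ψ ρ U).zero, mul_one]

theorem Xi_iK (x : Fin r → ℤ) :
    Xi n a c B D ψ φ ρ p s U hk e hD hB (iK n a c B D ψ φ ρ p U hk N x) =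
      chi n a c B D ψ ρ U (s x) := by
  unfold Xi iK
  rw [mLift_single, map_one, one_mul]

include hD hB in
/-- The isomorphism. -/
theorem iso_W : Nonempty (WW n a c B D ψ φ ρ p U hk N ≃ₐ[k] D) := by
  obtain ⟨G, hG1, hG2, hG3⟩ := theta n a c B D ψ φ ρ p s U hk e hD hB
    (iE n a c B D ψ φ ρ p U hk N) (isMon_iy n a c B D ψ φ ρ p U hk)
    (isMon_iK n a c B D ψ φ ρ p U hk) (iy_rel n a c B D ψ φ ρ p U hk)
  have hGU : ∀ y, G (pm U y) = iy n a c B D ψ φ ρ p U hk N y := by
    intro y
    refine IsMon.ext (h := fun y => G (pm U y)) ?_ (isMon_iy n a c B D ψ φ ρ p U hk) ?_ y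
    · exact ⟨by rw [(isMon_pm U).zero, map_one], fun x y => by rw [(isMon_pm U).add, map_mul]⟩
    · intro δ
      have h : yv δ 1 = Pi.single δ (1 : ℤ) := by
        funext j
        by_cases hj : j = δ
        · subst hj
          rw [yv_same, Pi.single_eq_same]
        · rw [yv_ne hj, Pi.single_eq_of_ne hj]
      change G (pm U (Pi.single δ 1)) = _
      rw [← h, ← hG3, h, pm_single]
  have hXi : ∀ v, Xi n a c B D ψ φ ρ p s U hk e hD hB
      (hW n a c B D ψ φ ρ p s U hk e hD (iE n a c B D ψ φ ρ p U hk N)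
        (iy n a c B D ψ φ ρ p U hk N) (iK n a c B D ψ φ ρ p U hk N) v) = ψ (mo n a c B v) := by
    intro v
    unfold hW
    rw [map_mul, map_mul, Xi_iK, Xi_iy, Xi_iE, chE_val]
    change _ * _ * chi n a c B D ψ ρ U (v - s (p v)) = _
    rw [mul_right_comm, ← (isMon_chi n a c B D ψ ρ U).add, add_sub_cancel, chi_mul]
  have h1 : (Xi n a c B D ψ φ ρ p s U hk e hD hB).comp G = RingHom.id D := by
    refine hD.ext D _ _ ?_ ?_
    · refine ext_B n a c B hB _ _ ?_ ?_
      · intro v
        change Xi n a c B D ψ φ ρ p s U hk e hD hB (G (ψ (mo n a c B v))) = ψ (mo n a c B v)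
        rw [hG1, hXi]
      · intro x
        change Xi n a c B D ψ φ ρ p s U hk e hD hB (G (ψ (algebraMap _ B (C x)))) =
          ψ (algebraMap _ B (C x))
        rw [← hD.hφ, hG2, Xi_iE, phE_val]
    · intro δ
      change Xi n a c B D ψ φ ρ p s U hk e hD hB (G (U δ)) = U δ
      rw [hG3, Xi_iy]
      have := pm_yv D U δ 1
      rw [pow_one] at this
      exact this
  have hGE : G.comp ((EE n a c B D ψ φ ρ p U hk).val : EE n a c B D ψ φ ρ p U hk →+* D) =
      iE n a c B D ψ φ ρ p U hk N := by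
    refine E_ext n a c B D ψ φ ρ p U hk _ _ ?_ ?_ ?_
    · intro x
      change G (phE n a c B D ψ φ ρ p U hk x : D) = _
      rw [phE_val, hG2]
    · intro j
      change G (ciE n a c B D ψ φ ρ p U hk j : D) = _
      rw [ciE_val]
      by_cases h : IsUnit (φ (c j.1 j.2))
      · have h2 := cinv_mul n c D φ j h
        have h3 := congrArg G h2
        rw [map_mul, map_one, hG2] at h3
        have h4 : phE n a c B D ψ φ ρ p U hk (c j.1 j.2) * ciE n a c B D ψ φ ρ p U hk j = 1 := by
          apply Subtype.ext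
          change (phE n a c B D ψ φ ρ p U hk (c j.1 j.2) : D) *
            (ciE n a c B D ψ φ ρ p U hk j : D) = 1
          rw [phE_val, ciE_val]
          exact h2
        have h5 := congrArg (iE n a c B D ψ φ ρ p U hk N) h4
        rw [map_mul, map_one] at h5
        exact aux1 h3 h5
      · have h2 : cinv n c D φ j = 0 := by
          unfold cinv
          rw [dif_neg h]
        have h3 : ciE n a c B D ψ φ ρ p U hk j = 0 := by
          apply Subtype.ext
          rw [ciE_val, h2]
          rfl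
        rw [h2, h3, map_zero, map_zero]
    · intro v
      change G (chE n a c B D ψ φ ρ p U hk v : D) = _
      rw [chE_val]
      unfold chi
      rw [map_mul, hG1, hGU, hW_ker n a c B D ψ φ ρ p s U hk e hD _
        (isMon_iK n a c B D ψ φ ρ p U hk) _ v.2]
      exact aux2 ((isMon_iy n a c B D ψ φ ρ p U hk).neg_mul _)
  have h2 : G.comp (Xi n a c B D ψ φ ρ p s U hk e hD hB) = RingHom.id _ := by
    refine AddMonoidAlgebra.ringHom_ext ?_ ?_
    · intro x
      have h3 : (G.comp (Xi n a c B D ψ φ ρ p s U hk e hD hB)).comp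
          AddMonoidAlgebra.singleZeroRingHom = AddMonoidAlgebra.singleZeroRingHom := by
        refine fer_ext _ _ ?_ ?_
        · intro y
          change G (Xi n a c B D ψ φ ρ p s U hk e hD hB (iE n a c B D ψ φ ρ p U hk N y)) =
            iE n a c B D ψ φ ρ p U hk N y
          rw [Xi_iE]
          exact RingHom.congr_fun hGE y
        · intro y
          change G (Xi n a c B D ψ φ ρ p s U hk e hD hB (iy n a c B D ψ φ ρ p U hk N y)) =
            iy n a c B D ψ φ ρ p U hk N y
          rw [Xi_iy, hGU]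
      exact RingHom.congr_fun h3 x
    · intro x
      change G (Xi n a c B D ψ φ ρ p s U hk e hD hB (iK n a c B D ψ φ ρ p U hk N x)) =
        iK n a c B D ψ φ ρ p U hk N x
      rw [Xi_iK]
      unfold chi
      rw [map_mul, hG1, hGU]
      unfold hW
      have h4 : (⟨s x - s (p (s x)), mem_ker n a c B D ψ φ ρ p s U e hD (s x)⟩ : p.ker) = 0 := by
        apply Subtype.ext
        change s x - s (p (s x)) = 0
        rw [hD.hs, sub_self]
      rw [h4, chE_zero, map_one, mul_one, hD.hs]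
      exact aux3 ((isMon_iy n a c B D ψ φ ρ p U hk).neg_mul _)
  have hcomm : ∀ x : k, Xi n a c B D ψ φ ρ p s U hk e hD hB
      (algebraMap k (WW n a c B D ψ φ ρ p U hk N) x) = algebraMap k D x := by
    intro x
    have h3 : algebraMap k (WW n a c B D ψ φ ρ p U hk N) x =
        iE n a c B D ψ φ ρ p U hk N (algebraMap k (EE n a c B D ψ φ ρ p U hk) x) := rfl
    rw [h3, Xi_iE]
    rfl
  refine ⟨AlgEquiv.ofBijective { Xi n a c B D ψ φ ρ p s U hk e hD hB with commutes' := hcomm }
    ⟨?_, ?_⟩⟩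
  · intro x y hxy
    have h3 := congrArg G hxy
    change (G.comp (Xi n a c B D ψ φ ρ p s U hk e hD hB)) x =
      (G.comp (Xi n a c B D ψ φ ρ p s U hk e hD hB)) y at h3
    rw [h2] at h3
    exact h3
  · intro x
    refine ⟨G x, ?_⟩
    change ((Xi n a c B D ψ φ ρ p s U hk e hD hB).comp G) x = x
    rw [h1]
    rfl

end iso

end Pool.Agent.E8helper74.FQ
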