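import Pool.Agent.E8helper74.BA.Str

/-!
# Stratification of affine schemes of finite type over a field by finitely many functions
-/

set_option autoImplicit false

open Pool.Agent.E8helper74.BA

namespace Pool.Agent.E8helper74.FQ

section

variable {k : Type} [Field k] {A : Type} [CommRing A] [Algebra k A] [hA : Algebra.FiniteType k A]
  (J0 : Ideal A) (S : Finset A)
  (F : ∀ (B : Type) [CommRing B] [Algebra k B], Prop)
  (hF : ∀ (B : Type) [CommRing B] [Algebra k B] [Algebra.FiniteType k B] (c : B),
    F (B ⧸ Ideal.span {c}) → F (Localization.Away c) → F B)

include hA hF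

theorem strat_aux
    (hS : ∀ (B : Type) [CommRing B] [Algebra k B] [Algebra A B] [IsScalarTower k A B],
      IsStratum J0 (S : Set A) B → F B)
    (S' : Finset A) : S' ⊆ S → ∀ (T : Set A) (w : A) (B : Type) [CommRing B] [Algebra k B]
      [Algebra A B] [IsScalarTower k A B],
      T ⊆ S → w ∈ Submonoid.closure (S : Set A) → Str (J0 ⊔ Ideal.span T) w B →
      (∀ a ∈ S, a ∉ S' → IsUnit (algebraMap A B a) ∨ algebraMap A B a = 0) → F B := by
  classical
  induction S' using Finset.induction_on with
  | empty =>
    intro _ T w B _ _ _ _ hT hw hB hd
    refine hS B ⟨fun a ha => hB.zero (Ideal.mem_sup_left ha), fun a ha => hd a ha (by simp), ?_,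
      fun E _ g1 g2 hg => hB.ext g1 g2 hg, ?_, hB.finiteType⟩
    · intro E _ g h0 h1 h2
      refine hB.lift g ?_ ?_
      · have hle : J0 ⊔ Ideal.span T ≤ RingHom.ker g := by
          rw [sup_le_iff]
          refine ⟨h0, ?_⟩
          rw [Ideal.span_le]
          intro t ht
          exact h1 t (hT ht) (hB.zero (Ideal.mem_sup_right (Ideal.subset_span ht)))
        intro a ha
        exact hle ha
      · have hcl : ∀ x ∈ Submonoid.closure (S : Set A), IsUnit (algebraMap A B x) →
            IsUnit (g x) := by
          intro x hx
          induction hx using Submonoid.closure_induction with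
          | mem x hx => exact h2 x hx
          | one =>
            intro _
            rw [map_one]
            exact isUnit_one
          | mul x y _ _ hx hy =>
            intro h
            rw [map_mul] at h ⊢
            exact IsUnit.mul (hx (isUnit_of_mul_isUnit_left h)) (hy (isUnit_of_mul_isUnit_right h))
        exact hcl w hw hB.unit
    · intro b
      obtain ⟨a, n, hn⟩ := hB.surj b
      refine ⟨a, w ^ n, pow_mem hw n, ?_, ?_⟩
      · rw [map_pow]
        exact hB.unit.pow n
      · rw [map_pow]
        exact hn
  | insert c S' hc ih =>
    intro hS' T w B _ _ _ _ hT hw hB hd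
    have hB' := hB.finiteType
    have hBft : Algebra.FiniteType k B := Algebra.FiniteType.trans (S := A) hA hB'
    have hcS : c ∈ S := hS' (Finset.mem_insert_self c S')
    have hsub : S' ⊆ S := fun x hx => hS' (Finset.mem_insert_of_mem hx)
    refine hF B (algebraMap A B c) ?_ ?_
    · have hT1 : IsScalarTower k A (B ⧸ Ideal.span {algebraMap A B c}) := inferInstance
      refine ih hsub (insert c T) w _ ?_ hw ?_ ?_
      · exact Set.insert_subset hcS hT
      · have h1 := hB.quot c
        have h2 : J0 ⊔ Ideal.span (insert c T) = J0 ⊔ Ideal.span T ⊔ Ideal.span {c} := by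
          rw [Ideal.span_insert, sup_assoc, sup_comm (Ideal.span T)]
        rw [h2]
        exact h1
      · intro a ha ha'
        by_cases hac : a = c
        · subst hac
          right
          change Ideal.Quotient.mk _ (algebraMap A B a) = 0
          rw [Ideal.Quotient.eq_zero_iff_mem]
          exact Ideal.mem_span_singleton_self _
        · rcases hd a ha (by simp [hac, ha']) with h | h
          · exact Or.inl (h.map (Ideal.Quotient.mk (Ideal.span {algebraMap A B c})))
          · right
            change Ideal.Quotient.mk _ (algebraMap A B a) = 0
            rw [h, map_zero]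
    · have hT1 : IsScalarTower k A (Localization.Away (algebraMap A B c)) := inferInstance
      refine ih hsub T (w * c) _ hT (mul_mem hw (Submonoid.subset_closure hcS))
        (hB.loc c (Localization.Away (algebraMap A B c))) ?_
      intro a ha ha'
      by_cases hac : a = c
      · subst hac
        left
        rw [IsScalarTower.algebraMap_apply A B (Localization.Away (algebraMap A B a))]
        exact IsLocalization.Away.algebraMap_isUnit _
      · rw [IsScalarTower.algebraMap_apply A B (Localization.Away (algebraMap A B c))]
        rcases hd a ha (by simp [hac, ha']) with h | h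
        · exact Or.inl (h.map _)
        · right
          rw [h, map_zero]

/-- A property of affine schemes of finite type over `k` which is closed under closed-open
decompositions is true for `Spec A / J0` if it is true for all strata. -/
theorem strat
    (hS : ∀ (B : Type) [CommRing B] [Algebra k B] [Algebra A B] [IsScalarTower k A B],
      IsStratum J0 (S : Set A) B → F B) :
    F (A ⧸ J0) := by
  refine strat_aux J0 S F hF hS S (Finset.Subset.refl _) ∅ 1 (A ⧸ J0) (Set.empty_subset _)
    (one_mem _) ?_ (fun a ha ha' => absurd ha ha')
  rw [Ideal.span_empty, sup_bot_eq]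
  exact Str.start J0

end

end Pool.Agent.E8helper74.FQ
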