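import Pool.Agent.E8helper74.FQ.Iso
import Pool.Agent.E8helper74.FQ.Dim
import Pool.Agent.E8helper74.FQ.Cover
import Pool.Agent.E8helper74.FQ.Strat
import Pool.Agent.E8helper74.BA.Few

/-!
# Systems of polynomial equations with independent exponents and products of Fermat curves
-/

set_option autoImplicit false
set_option linter.unusedSectionVars false

open MvPolynomial Pool.Agent.E8helper74.BA

namespace Pool.Agent.E8helper74.FQ

theorem torus_upK {k : Type} [Field k] {F : ∀ (B : Type) [CommRing B] [Algebra k B], Prop}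
    (hF : GoodF k F) (C : Type) [CommRing C] [Algebra k C] [hft : Algebra.FiniteType k C] (hC : F C)
    (r : ℕ) : F (AddMonoidAlgebra C (Fin r → ℤ)) := by
  have hAll : ∀ r : ℕ, Algebra.FiniteType k (AddMonoidAlgebra C (Fin r → ℤ)) := fun r =>
    Algebra.FiniteType.trans (S := C) hft (AddMonoidAlgebra.finiteType_of_fg C (Fin r → ℤ))
  induction r with
  | zero =>
    exact hF.iso C _ (AddMonoidAlgebra.uniqueAlgEquiv (R := k) (A := C) (Fin 0 → ℤ)).symm hC
  | succ r ih =>
    have h0 := hAll r
    have h1 : F (LaurentPolynomial (AddMonoidAlgebra C (Fin r → ℤ))) := hF.laurent _ ih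
    let e1 : AddMonoidAlgebra C (Fin (r + 1) → ℤ) ≃ₐ[k] AddMonoidAlgebra C (ℤ × (Fin r → ℤ)) :=
      AddMonoidAlgebra.domCongr k C (consAdd r)
    let e2 : AddMonoidAlgebra C (ℤ × (Fin r → ℤ)) ≃ₐ[k]
        LaurentPolynomial (AddMonoidAlgebra C (Fin r → ℤ)) :=
      AlgEquiv.ofRingEquiv (f := AddMonoidAlgebra.curryRingEquiv) (fun x => by
        change AddMonoidAlgebra.curryRingEquiv (AddMonoidAlgebra.single ((0 : ℤ), (0 : Fin r → ℤ))
          (algebraMap k C x)) = _
        rw [AddMonoidAlgebra.curryRingEquiv_single]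
        rfl)
    have h2 : Algebra.FiniteType k (LaurentPolynomial (AddMonoidAlgebra C (Fin r → ℤ))) :=
      Algebra.FiniteType.of_surjective (e1.trans e2).toAlgHom (e1.trans e2).surjective
    exact hF.iso _ _ (e1.trans e2).symm h1

attribute [local instance] Classical.propDecidable

section

variable {k : Type} [Field k] {A : Type} [CommRing A] [Algebra k A] [hA : Algebra.FiniteType k A]
  {σ κ : Type} [Fintype σ] [Fintype κ] (n : κ → ℕ) (a : κ → ℕ → (σ →₀ ℕ)) (c : κ → ℕ → A)

theorem card_tri (B : Type) [CommRing B] [Nontrivial B] [Algebra (MvPolynomial σ A) B]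
    (hB : IsStratum (Ideal.span (Set.range fun l => ps a c l (n l)))
      (fns n a c : Set (MvPolynomial σ A)) B) :
    Nat.card (Tri n a c B) ≤ ∑ l, (n l - 2) := by
  have h0 : ∀ l, ¬ UU n a c B l 0 := by
    rintro l ⟨h1, h2⟩
    change IsUnit (algebraMap (MvPolynomial σ A) B (ps a c l 0)) at h2
    rw [ps_zero, map_zero] at h2
    exact not_isUnit_zero h2
  have h1 : ∀ l, ¬ UU n a c B l (n l) := by
    rintro l ⟨h1, h2⟩
    change IsUnit (algebraMap (MvPolynomial σ A) B (ps a c l (n l))) at h2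
    rw [hB.zero _ (Ideal.subset_span ⟨l, rfl⟩)] at h2
    exact not_isUnit_zero h2
  have h2 : ∀ x : Tri n a c B, 0 < (x.1.2 : ℕ) := by
    intro x
    rcases Nat.eq_zero_or_pos (x.1.2 : ℕ) with h | h
    · exfalso
      have h3 := x.2.1
      rw [h] at h3
      exact h0 _ h3
    · exact h
  have h3 : ∀ x : Tri n a c B, (x.1.2 : ℕ) + 1 < n x.1.1 := by
    intro x
    have h4 := x.1.2.2
    rcases Nat.lt_or_ge ((x.1.2 : ℕ) + 1) (n x.1.1) with h | h
    · exact h
    · exfalso
      have h5 : (x.1.2 : ℕ) + 1 = n x.1.1 := by omega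
      have h6 := x.2.2.1
      rw [h5] at h6
      exact h1 _ h6
  let f : Tri n a c B → Σ l : κ, Fin (n l - 2) := fun x =>
    ⟨x.1.1, ⟨(x.1.2 : ℕ) - 1, by have := h2 x; have := h3 x; omega⟩⟩
  have hf : Function.Injective f := by
    rintro ⟨⟨l, i⟩, hx⟩ ⟨⟨l', i'⟩, hx'⟩ h
    have e1 : l = l' := congrArg Sigma.fst h
    subst e1
    have e2 := eq_of_heq (Sigma.mk.inj h).2
    have e3 : (i : ℕ) - 1 = (i' : ℕ) - 1 := congrArg Fin.val e2
    have e4 := h2 ⟨⟨l, i⟩, hx⟩
    have e5 := h2 ⟨⟨l, i'⟩, hx'⟩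
    change 0 < (i : ℕ) at e4
    change 0 < (i' : ℕ) at e5
    have e6 : i = i' := Fin.ext (by omega)
    subst e6
    rfl
  have h4 := Nat.card_le_card_of_injective f hf
  have h5 : Nat.card (Σ l : κ, Fin (n l - 2)) = ∑ l, (n l - 2) := by
    rw [Nat.card_eq_fintype_card, Fintype.card_sigma]
    simp
  rw [h5] at h4
  exact h4

/-- A property of algebras of finite type over `k` which is closed under closed-open decompositions, products
with `𝔾_m` and descends from finite free extensions is true for a system of polynomial equations with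
independent exponents, if it is true for products of `Spec E` with open Fermat curves. -/
theorem fermat {F : ∀ (B : Type) [CommRing B] [Algebra k B], Prop} (hF : GoodF k F) {N : ℕ}
    (hN : 0 < N) (hc : Cond n a N)
    (hbase : ∀ (E : Type) [CommRing E] [Algebra k E] [Algebra.FiniteType k E] (m : ℕ),
      ringKrullDim E ≤ ringKrullDim A → m ≤ ∑ l, (n l - 2) → F (Fer E m N)) :
    F (MvPolynomial σ A ⧸ Ideal.span (Set.range fun l => ps a c l (n l))) := by
  have hP : Algebra.FiniteType k (MvPolynomial σ A) :=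
    Algebra.FiniteType.trans (S := A) hA inferInstance
  refine strat (A := MvPolynomial σ A) (Ideal.span (Set.range fun l => ps a c l (n l)))
    (fns n a c) F hF.glue ?_
  intro B _ _ _ _ hB
  have hBft : Algebra.FiniteType k B := Algebra.FiniteType.trans (S := MvPolynomial σ A) hP hB.ft
  rcases subsingleton_or_nontrivial B with hs | hn
  · have h1 : F (Fer B 0 N) := hbase B 0 (by
      rw [ringKrullDim_eq_bot_of_subsingleton]
      exact bot_le) (Nat.zero_le _)
    have h2 : Subsingleton (AddMonoidAlgebra B (Fin 0 ⊕ Fin 0 → ℤ)) := by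
      have : Module B (AddMonoidAlgebra B (Fin 0 ⊕ Fin 0 → ℤ)) := inferInstance
      exact Module.subsingleton B _
    have h3 : Subsingleton (Fer B 0 N) := Ideal.Quotient.mk_surjective.subsingleton
    have h4 : Algebra.FiniteType k (Fer B 0 N) :=
      Algebra.FiniteType.of_surjective (R := k) (A := k) (B := Fer B 0 N) (Algebra.ofId k _)
        (fun x => ⟨0, Subsingleton.elim _ _⟩)
    refine hF.iso (Fer B 0 N) B ?_ h1
    exact AlgEquiv.ofBijective ({ toFun := fun _ => 0, map_one' := Subsingleton.elim _ _, map_zero' := rfl, map_mul' := fun _ _ => Subsingleton.elim _ _, map_add' := fun _ _ => Subsingleton.elim _ _, commutes' := fun _ => Subsingleton.elim _ _ } : Fer B 0 N →ₐ[k] B)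
      ⟨fun x y _ => Subsingleton.elim _ _, fun y => ⟨0, Subsingleton.elim _ _⟩⟩
  · let m := Nat.card (Tri n a c B)
    have hfin : Finite (Tri n a c B) := inferInstance
    let e : Tri n a c B ≃ Fin m := Finite.equivFin _
    have hm : m ≤ ∑ l, (n l - 2) := card_tri n a c B hB
    obtain ⟨ρ, r0, r1, r2, r3, r4⟩ := exists_rho n a c B hc e
    obtain ⟨r, p, s, hs, hp, -⟩ := exists_split (HH n a c B) (AddSubgroup.closure (dif n a c B))
    let u : Fin m ⊕ Fin m → B := Sum.elim
      (fun j => mo n a c B (es n a c B (e.symm j).1.1 (e.symm j).1.2 -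
        es n a c B (e.symm j).1.1 ((e.symm j).1.2 + 1)))
      (fun j => algebraMap (MvPolynomial σ A) B (C (c (e.symm j).1.1 (e.symm j).1.2)) *
        mo n a c B (ev n a c B (e.symm j).1.1 (e.symm j).1.2 -
          es n a c B (e.symm j).1.1 ((e.symm j).1.2 + 1)))
    have hu : ∀ δ, IsUnit (u δ) := by
      rintro (j | j)
      · exact mon_unit (isMon_mo n a c B) _
      · exact IsUnit.mul ((uT_iff n a c B _ _).mp (e.symm j).2.2.2).2 (mon_unit (isMon_mo n a c B) _)
    have hu0 : ∀ x : Tri n a c B, u (Sum.inl (e x)) =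
        mo n a c B (es n a c B x.1.1 x.1.2 - es n a c B x.1.1 (x.1.2 + 1)) := by
      intro x
      change mo n a c B (es n a c B (e.symm (e x)).1.1 (e.symm (e x)).1.2 -
        es n a c B (e.symm (e x)).1.1 ((e.symm (e x)).1.2 + 1)) = _
      rw [e.symm_apply_apply]
    have hu1 : ∀ x : Tri n a c B, u (Sum.inr (e x)) =
        algebraMap (MvPolynomial σ A) B (C (c x.1.1 x.1.2)) *
        mo n a c B (ev n a c B x.1.1 x.1.2 - es n a c B x.1.1 (x.1.2 + 1)) := by
      intro x
      change algebraMap (MvPolynomial σ A) B (C (c (e.symm (e x)).1.1 (e.symm (e x)).1.2)) *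
        mo n a c B (ev n a c B (e.symm (e x)).1.1 (e.symm (e x)).1.2 -
          es n a c B (e.symm (e x)).1.1 ((e.symm (e x)).1.2 + 1)) = _
      rw [e.symm_apply_apply]
    obtain ⟨D, _, _, ψ', τ, hDft, hτ, hlift, hext, hFD⟩ := cover_all hF hN (m + m) B
      (fun i => u (finSumFinEquiv.symm i))
    let ψ : B →+* D := ψ'
    let φ : A →+* D := ψ.comp ((algebraMap (MvPolynomial σ A) B).comp C)
    have hτu : ∀ δ : Fin m ⊕ Fin m, IsUnit (τ (finSumFinEquiv δ)) := by
      intro δ
      have h1 : IsUnit (τ (finSumFinEquiv δ) ^ N) := by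
        rw [hτ]
        exact (hu _).map ψ'
      exact (isUnit_pow_iff hN.ne').mp h1
    let U : Fin m ⊕ Fin m → Dˣ := fun δ => (hτu δ).unit
    have hUτ : ∀ δ, (U δ : D) = τ (finSumFinEquiv δ) := fun δ => rfl
    have hUN : ∀ δ, (U δ : D) ^ N = ψ (u δ) := by
      intro δ
      rw [hUτ, hτ, Equiv.symm_apply_apply]
      rfl
    have hmem : ∀ d ∈ dif n a c B, p d = 0 := fun d hd =>
      (hp d).mpr ⟨1, one_pos, by rw [one_smul]; exact AddSubgroup.subset_closure hd⟩
    have hD : Dat n a c B D ψ φ (N := N) ρ p s U e :=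
      { hφ := fun x => rfl
        hs := hs
        p0 := fun l i hi h0 h1 => hmem _ ⟨l, i, hi, Or.inl ⟨h0, h1, rfl⟩⟩
        p1 := fun l i hi h0 h1 => hmem _ ⟨l, i, hi, Or.inr (Or.inl ⟨h0, h1, rfl⟩)⟩
        p2 := fun l i hi h0 h1 => hmem _ ⟨l, i, hi, Or.inr (Or.inr ⟨h0, h1, rfl⟩)⟩
        r0 := r0
        r1 := r1
        r2 := r2
        r3 := r3
        r4 := r4
        u0 := fun x => by rw [hUN, hu0]
        u1 := fun x => by
          rw [hUN, hu1, map_mul]
          rfl
        lift := fun W _ g t ht0 ht1 => by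
          obtain ⟨G, hG1, hG2⟩ := hlift W g (fun i => t (finSumFinEquiv.symm i)) (by
            intro i
            obtain ⟨δ, rfl⟩ := finSumFinEquiv.surjective i
            rw [Equiv.symm_apply_apply]
            rcases δ with j | j
            · obtain ⟨x, rfl⟩ := e.surjective j
              rw [hu0, ht0]
            · obtain ⟨x, rfl⟩ := e.surjective j
              rw [hu1, ht1, map_mul])
          refine ⟨G, hG1, fun δ => ?_⟩
          rw [hUτ, hG2, Equiv.symm_apply_apply]
        ext := fun W _ g1 g2 h1 h2 => hext W g1 g2 h1 fun i => by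
          obtain ⟨δ, rfl⟩ := finSumFinEquiv.surjective i
          have := h2 δ
          rwa [hUτ] at this }
    have hk : ∀ x : k, algebraMap k D x = φ (algebraMap k A x) := by
      intro x
      rw [← ψ'.commutes, IsScalarTower.algebraMap_apply k (MvPolynomial σ A) B]
      rfl
    apply hFD
    obtain ⟨iso⟩ := iso_W n a c B D ψ φ ρ p s U hk e hD hB
    have hE : Algebra.FiniteType k (EE n a c B D ψ φ ρ p U hk) := ft_EE n a c B D ψ φ ρ p U hk
    have hdim := dim_EE n a c B D ψ φ ρ p s U hk e hD hB fun v hv => (hp v).mp hv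
    have h1 : F (Fer (EE n a c B D ψ φ ρ p U hk) m N) := hbase _ m hdim hm
    have h2 : Algebra.FiniteType (EE n a c B D ψ φ ρ p U hk)
        (Fer (EE n a c B D ψ φ ρ p U hk) m N) := by
      have h3 : Algebra.FiniteType (EE n a c B D ψ φ ρ p U hk)
          (AddMonoidAlgebra (EE n a c B D ψ φ ρ p U hk) (Fin m ⊕ Fin m → ℤ)) :=
        AddMonoidAlgebra.finiteType_of_fg _ _
      exact Algebra.FiniteType.of_surjective
        (Ideal.Quotient.mkₐ (EE n a c B D ψ φ ρ p U hk) _) Ideal.Quotient.mk_surjective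
    have h3 : Algebra.FiniteType k (Fer (EE n a c B D ψ φ ρ p U hk) m N) :=
      Algebra.FiniteType.trans (S := EE n a c B D ψ φ ρ p U hk) hE h2
    have h4 : Algebra.FiniteType k (WW n a c B D ψ φ ρ p U hk N) :=
      Algebra.FiniteType.trans (S := Fer (EE n a c B D ψ φ ρ p U hk) m N) h3
        (AddMonoidAlgebra.finiteType_of_fg _ _)
    exact hF.iso _ _ iso (torus_upK hF _ h1 r)

end

end Pool.Agent.E8helper74.FQ
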