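import Pool.Agent.E8helper74.FQ.Sys
import Pool.Agent.E8helper74.FQ.Fer

/-!
# Linear forms on the exponents of a stratum
-/

set_option autoImplicit false
set_option linter.unusedSectionVars false

open MvPolynomial Pool.Agent.E8helper74.BA

attribute [local instance] Classical.propDecidable

namespace Pool.Agent.E8helper74.FQ

/-- Every integral function on the exponents becomes, after multiplication by `N` and up to a constant for each
polynomial, the restriction of an integral linear form. -/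
def Cond {σ κ : Type} [Fintype σ] (n : κ → ℕ) (a : κ → ℕ → (σ →₀ ℕ)) (N : ℕ) : Prop :=
  ∀ w : κ → ℕ → ℤ, ∃ (r : σ → ℤ) (b : κ → ℤ), ∀ l i, i < n l →
    ∑ j, (a l i j : ℤ) * r j = b l + N * w l i

section sys

variable {A : Type} [CommRing A] {σ κ : Type} [Fintype σ] [Fintype κ] (n : κ → ℕ)
  (a : κ → ℕ → (σ →₀ ℕ)) (c : κ → ℕ → A)
variable (B : Type) [CommRing B] [Algebra (MvPolynomial σ A) B]

/-- the values on the generators -/
def val (r : σ → ℤ) (R : κ → ℕ → ℤ) : Gm σ n → ℤ
  | Sum.inl i => r i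
  | Sum.inr x => R x.1 x.2

/-- the linear form -/
noncomputable def rho (r : σ → ℤ) (R : κ → ℕ → ℤ) : HH n a c B →+ ℤ where
  toFun v := ∑ g, v g * val n r R g.1
  map_zero' := by simp
  map_add' v w := by
    simp only [Pi.add_apply, add_mul]
    exact Finset.sum_add_distrib

theorem rho_single (r : σ → ℤ) (R : κ → ℕ → ℤ) (g : {g : Gm σ n // uq n a c B g}) (x : ℤ) :
    rho n a c B r R (Pi.single g x) = x * val n r R g.1 := by
  change ∑ g', (Pi.single g x : HH n a c B) g' * val n r R g'.1 = _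
  rw [Finset.sum_eq_single g]
  · rw [Pi.single_eq_same]
  · intro g' _ hg
    rw [Pi.single_eq_of_ne hg, zero_mul]
  · intro h
    exact absurd (Finset.mem_univ _) h

theorem ext_single' (i : {i : σ // uv n a c B i}) (x : ℤ) :
    ext n a c B (Pi.single i x) = Pi.single ⟨Sum.inl i.1, i.2⟩ x := by
  funext g
  rcases g with ⟨j | y, hg⟩
  · change (Pi.single i x : {i : σ // uv n a c B i} → ℤ) ⟨j, hg⟩ = _
    by_cases hj : j = i.1
    · subst hj
      rw [Pi.single_eq_same, Pi.single_eq_same]
    · rw [Pi.single_eq_of_ne, Pi.single_eq_of_ne]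
      · intro h
        exact hj (Sum.inl.inj (Subtype.ext_iff.mp h))
      · intro h
        exact hj (Subtype.ext_iff.mp h)
  · change (0 : ℤ) = _
    rw [Pi.single_eq_of_ne]
    intro h
    exact absurd (Subtype.ext_iff.mp h) (by simp)

theorem rho_ext (r : σ → ℤ) (R : κ → ℕ → ℤ) (v : {i : σ // uv n a c B i} → ℤ) :
    rho n a c B r R (ext n a c B v) = ∑ i, v i * r i.1 := by
  let f1 : ({i : σ // uv n a c B i} → ℤ) →+ ℤ := (rho n a c B r R).comp (ext n a c B)
  let f2 : ({i : σ // uv n a c B i} → ℤ) →+ ℤ :=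
    { toFun := fun v => ∑ i, v i * r i.1
      map_zero' := by simp
      map_add' := fun v w => by
        simp only [Pi.add_apply, add_mul]
        exact Finset.sum_add_distrib }
  have h : f1 = f2 := by
    refine AddMonoidHom.functions_ext _ f1 f2 fun i x => ?_
    change rho n a c B r R (ext n a c B (Pi.single i x)) =
      ∑ j, (Pi.single i x : {i : σ // uv n a c B i} → ℤ) j * r j.1
    rw [ext_single', rho_single, Finset.sum_eq_single i]
    · rw [Pi.single_eq_same]
      rfl
    · intro g' _ hg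
      rw [Pi.single_eq_of_ne hg, zero_mul]
    · intro h
      exact absurd (Finset.mem_univ _) h
  exact DFunLike.congr_fun h v

theorem rho_ev (r : σ → ℤ) (R : κ → ℕ → ℤ) (l : κ) (i : ℕ) (hT : uT a c B l i) :
    rho n a c B r R (ev n a c B l i) = ∑ j, (a l i j : ℤ) * r j := by
  have hS := ((uT_iff n a c B l i).mp hT).1
  unfold ev
  rw [rho_ext]
  have h1 : ∑ j, (a l i j : ℤ) * r j =
      ∑ j ∈ Finset.univ.filter (uv n a c B), (a l i j : ℤ) * r j := by
    rw [Finset.sum_filter]
    apply Finset.sum_congr rfl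
    intro j _
    by_cases hj : uv n a c B j
    · rw [if_pos hj]
    · rw [if_neg hj]
      have h2 : a l i j = 0 := by
        by_contra h3
        exact hj (hS j h3)
      rw [h2]
      simp
  rw [h1, Finset.sum_subtype (Finset.univ.filter (uv n a c B)) (p := uv n a c B) (by simp)]
  rfl

/-- the partial sum is a unit -/
def UU (l : κ) (i : ℕ) : Prop := ∃ hi : i < n l + 1, uq n a c B (Sum.inr ⟨l, ⟨i, hi⟩⟩)

/-- the exponent of a partial sum -/
noncomputable def es (l : κ) (i : ℕ) : HH n a c B :=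
  if hi : UU n a c B l i then Pi.single ⟨Sum.inr ⟨l, ⟨i, hi.1⟩⟩, hi.2⟩ 1 else 0

theorem sv_eq {E : Type} [CommRing E] (h : HH n a c B → E) (l : κ) (i : ℕ) :
    sv n a c B h l i = if UU n a c B l i then h (es n a c B l i) else 0 := by
  unfold sv es
  by_cases hi : UU n a c B l i
  · rw [if_pos hi, dif_pos hi]
    exact dif_pos hi
  · rw [if_neg hi]
    exact dif_neg hi

theorem rho_es (r : σ → ℤ) (R : κ → ℕ → ℤ) (l : κ) (i : ℕ) (hU : UU n a c B l i) :
    rho n a c B r R (es n a c B l i) = R l i := by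
  unfold es
  rw [dif_pos hU, rho_single, one_mul]
  rfl

/-- the relations with three terms -/
abbrev Tri : Type :=
  {x : Σ l : κ, Fin (n l) // UU n a c B x.1 x.2 ∧ UU n a c B x.1 (x.2 + 1) ∧ uT a c B x.1 x.2}

theorem tri_ext {x : Tri n a c B} {l : κ} {i : ℕ} (h1 : l = x.1.1) (h2 : i = x.1.2)
    (hi : i < n l) : x.1 = ⟨l, ⟨i, hi⟩⟩ := by
  obtain ⟨⟨l', i'⟩, hx⟩ := x
  change l = l' at h1
  subst h1
  change i = i' at h2
  subst h2
  rfl

/-- The linear forms exist. -/
theorem exists_rho {N : ℕ} (hN : Cond n a N) {m : ℕ} (e : Tri n a c B ≃ Fin m) :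
    ∃ ρ : HH n a c B →+ (Fin m ⊕ Fin m → ℤ),
      (∀ x : Tri n a c B, ρ (es n a c B x.1.1 x.1.2 - es n a c B x.1.1 (x.1.2 + 1)) =
        yv (Sum.inl (e x)) (N : ℤ)) ∧
      (∀ x : Tri n a c B, ρ (ev n a c B x.1.1 x.1.2 - es n a c B x.1.1 (x.1.2 + 1)) =
        yv (Sum.inr (e x)) (N : ℤ)) ∧
      (∀ l i, i < n l → UU n a c B l i → UU n a c B l (i + 1) → ¬ uT a c B l i →
        ρ (es n a c B l i - es n a c B l (i + 1)) = 0) ∧
      (∀ l i, i < n l → ¬ UU n a c B l i → UU n a c B l (i + 1) → uT a c B l i →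
        ρ (ev n a c B l i - es n a c B l (i + 1)) = 0) ∧
      (∀ l i, i < n l → UU n a c B l i → ¬ UU n a c B l (i + 1) → uT a c B l i →
        ρ (ev n a c B l i - es n a c B l i) = 0) := by
  have h0 : ∀ x : Tri n a c B, ∃ f : HH n a c B →+ ℤ,
      (∀ l i, i < n l → UU n a c B l i → UU n a c B l (i + 1) →
        f (es n a c B l i - es n a c B l (i + 1)) = if l = x.1.1 ∧ i = x.1.2 then (N : ℤ) else 0) ∧
      (∀ l i, i < n l → uT a c B l i → UU n a c B l (i + 1) →
        f (ev n a c B l i - es n a c B l (i + 1)) = 0) ∧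
      (∀ l i, i < n l → uT a c B l i → UU n a c B l i → ¬ (l = x.1.1 ∧ i = x.1.2) →
        f (ev n a c B l i - es n a c B l i) = 0) := by
    intro x
    obtain ⟨r, b, hrb⟩ := hN fun l i => if l = x.1.1 ∧ i < x.1.2 then 1 else 0
    refine ⟨rho n a c B r fun l i => b l + N * (if l = x.1.1 ∧ i ≤ x.1.2 then 1 else 0), ?_, ?_, ?_⟩
    · intro l i hi h1 h2
      rw [map_sub, rho_es n a c B _ _ l i h1, rho_es n a c B _ _ l (i + 1) h2]
      by_cases hl : l = x.1.1
      · simp only [hl, true_and] at *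
        split_ifs <;> omega
      · simp [hl]
    · intro l i hi h1 h2
      rw [map_sub, rho_ev n a c B _ _ l i h1, rho_es n a c B _ _ l (i + 1) h2, hrb l i hi]
      by_cases hl : l = x.1.1
      · simp only [hl, true_and] at *
        split_ifs <;> omega
      · simp [hl]
    · intro l i hi h1 h2 h3
      rw [map_sub, rho_ev n a c B _ _ l i h1, rho_es n a c B _ _ l i h2, hrb l i hi]
      by_cases hl : l = x.1.1
      · simp only [hl, true_and] at *
        split_ifs <;> omega
      · simp [hl]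
  have h1 : ∀ x : Tri n a c B, ∃ f : HH n a c B →+ ℤ,
      (∀ l i, i < n l → UU n a c B l i → UU n a c B l (i + 1) →
        f (es n a c B l i - es n a c B l (i + 1)) = 0) ∧
      (∀ l i, i < n l → uT a c B l i → UU n a c B l (i + 1) →
        f (ev n a c B l i - es n a c B l (i + 1)) = if l = x.1.1 ∧ i = x.1.2 then (N : ℤ) else 0) ∧
      (∀ l i, i < n l → uT a c B l i → UU n a c B l i → ¬ (l = x.1.1 ∧ i = x.1.2) →
        f (ev n a c B l i - es n a c B l i) = 0) := by
    intro x
    obtain ⟨r, b, hrb⟩ := hN fun l i => if l = x.1.1 ∧ i = x.1.2 then 1 else 0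
    refine ⟨rho n a c B r fun l i => b l, ?_, ?_, ?_⟩
    · intro l i hi h1 h2
      rw [map_sub, rho_es n a c B _ _ l i h1, rho_es n a c B _ _ l (i + 1) h2, sub_self]
    · intro l i hi h1 h2
      rw [map_sub, rho_ev n a c B _ _ l i h1, rho_es n a c B _ _ l (i + 1) h2, hrb l i hi]
      split_ifs <;> simp
    · intro l i hi h1 h2 h3
      rw [map_sub, rho_ev n a c B _ _ l i h1, rho_es n a c B _ _ l i h2, hrb l i hi, if_neg h3]
      simp
  choose f0 f01 f02 f03 using h0
  choose f1 f11 f12 f13 using h1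
  let ρ : HH n a c B →+ (Fin m ⊕ Fin m → ℤ) :=
    { toFun := fun v => Sum.elim (fun j => f0 (e.symm j) v) (fun j => f1 (e.symm j) v)
      map_zero' := by
        funext j
        rcases j with j | j
        · exact map_zero _
        · exact map_zero _
      map_add' := fun v w => by
        funext j
        rcases j with j | j
        · exact map_add _ _ _
        · exact map_add _ _ _ }
  have hne : ∀ (x : Tri n a c B) (l : κ) (i : ℕ), i < n l →
      ¬ (UU n a c B l i ∧ UU n a c B l (i + 1) ∧ uT a c B l i) → ¬ (l = x.1.1 ∧ i = x.1.2) := by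
    rintro x l i hi h ⟨h1, h2⟩
    apply h
    have h3 := tri_ext n a c B h1 h2 hi
    have h4 := x.2
    rw [h3] at h4
    exact h4
  have hself : ∀ (x : Tri n a c B) (j : Fin m),
      (if x.1.1 = (e.symm j).1.1 ∧ (x.1.2 : ℕ) = (e.symm j).1.2 then (N : ℤ) else 0) =
        if j = e x then (N : ℤ) else 0 := by
    intro x j
    by_cases h : j = e x
    · rw [if_pos h, if_pos]
      rw [h, e.symm_apply_apply]
      exact ⟨rfl, rfl⟩
    · rw [if_neg h, if_neg]
      rintro ⟨h1, h2⟩
      apply h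
      have h3 := tri_ext n a c B h1 h2 x.1.2.2
      have h4 : e.symm j = x := Subtype.ext h3
      rw [← h4, e.apply_symm_apply]
  refine ⟨ρ, ?_, ?_, ?_, ?_, ?_⟩
  · intro x
    funext j
    rcases j with j | j
    · change f0 (e.symm j) _ = _
      rw [f01 _ _ _ x.1.2.2 x.2.1 x.2.2.1, hself]
      by_cases hj : j = e x
      · rw [if_pos hj, hj, yv_same]
      · rw [if_neg hj, yv_ne (fun h => hj (Sum.inl.inj h))]
    · change f1 (e.symm j) _ = _
      rw [f11 _ _ _ x.1.2.2 x.2.1 x.2.2.1, yv_ne (by simp)]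
  · intro x
    funext j
    rcases j with j | j
    · change f0 (e.symm j) _ = _
      rw [f02 _ _ _ x.1.2.2 x.2.2.2 x.2.2.1, yv_ne (by simp)]
    · change f1 (e.symm j) _ = _
      rw [f12 _ _ _ x.1.2.2 x.2.2.2 x.2.2.1, hself]
      by_cases hj : j = e x
      · rw [if_pos hj, hj, yv_same]
      · rw [if_neg hj, yv_ne (fun h => hj (Sum.inr.inj h))]
  · intro l i hi h1 h2 h3
    funext j
    rcases j with j | j
    · change f0 (e.symm j) _ = _
      rw [f01 _ _ _ hi h1 h2, if_neg (hne _ l i hi fun h => h3 h.2.2)]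
      rfl
    · change f1 (e.symm j) _ = _
      rw [f11 _ _ _ hi h1 h2]
      rfl
  · intro l i hi h1 h2 h3
    funext j
    rcases j with j | j
    · change f0 (e.symm j) _ = _
      rw [f02 _ _ _ hi h3 h2]
      rfl
    · change f1 (e.symm j) _ = _
      rw [f12 _ _ _ hi h3 h2, if_neg (hne _ l i hi fun h => h1 h.1)]
      rfl
  · intro l i hi h1 h2 h3
    funext j
    rcases j with j | j
    · change f0 (e.symm j) _ = _
      rw [f03 _ _ _ hi h3 h1 (hne _ l i hi fun h => h2 h.2.1)]
      rfl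
    · change f1 (e.symm j) _ = _
      rw [f13 _ _ _ hi h3 h1 (hne _ l i hi fun h => h2 h.2.1)]
      rfl

end sys

end Pool.Agent.E8helper74.FQ
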