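import Pool.Agent.E8helper74.FQ.Rho

/-!
# The part of degree zero of the covering of a stratum
-/

set_option autoImplicit false
set_option linter.unusedSectionVars false

open MvPolynomial Pool.Agent.E8helper74.BA

attribute [local instance] Classical.propDecidable

namespace Pool.Agent.E8helper74.FQ

section sub

variable {k : Type} [Field k] {A : Type} [CommRing A] [Algebra k A] {σ κ : Type} [Fintype σ]
  [Fintype κ] (n : κ → ℕ) (a : κ → ℕ → (σ →₀ ℕ)) (c : κ → ℕ → A)
  (B : Type) [CommRing B] [Algebra (MvPolynomial σ A) B]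
  (D : Type) [CommRing D] [Algebra k D] (ψ : B →+* D) (φ : A →+* D) {m r : ℕ}
  (ρ : HH n a c B →+ (Fin m ⊕ Fin m → ℤ)) (p : HH n a c B →+ (Fin r → ℤ))
  (U : Fin m ⊕ Fin m → Dˣ)

/-- the monomials of weight zero -/
noncomputable def chi (v : HH n a c B) : D := ψ (mo n a c B v) * pm U (-ρ v)

theorem isMon_chi : IsMon (chi n a c B D ψ ρ U) where
  zero := by
    unfold chi
    rw [(isMon_mo n a c B).zero, map_zero, neg_zero, (isMon_pm U).zero, map_one, one_mul]
  add v w := by
    unfold chi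
    rw [(isMon_mo n a c B).add, map_add, neg_add, (isMon_pm U).add, map_mul]
    ring

/-- the inverses of the coefficients -/
noncomputable def cinv (j : Σ l : κ, Fin (n l)) : D :=
  if h : IsUnit (φ (c j.1 j.2)) then ((h.unit⁻¹ : Dˣ) : D) else 0

theorem cinv_mul (j : Σ l : κ, Fin (n l)) (h : IsUnit (φ (c j.1 j.2))) :
    φ (c j.1 j.2) * cinv n c D φ j = 1 := by
  unfold cinv
  rw [dif_pos h]
  exact h.mul_val_inv

/-- the source of the parametrization -/
abbrev QQ : Type := AddMonoidAlgebra (MvPolynomial (Σ l : κ, Fin (n l)) A) p.ker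

/-- the parametrization -/
noncomputable def Psi : QQ n a c B p →+* D :=
  AddMonoidAlgebra.liftNCRingHom (eval₂Hom (φ) (cinv n c D φ))
    { toFun := fun v => chi n a c B D ψ ρ U (v.toAdd : p.ker)
      map_one' := (isMon_chi n a c B D ψ ρ U).zero
      map_mul' := fun v w => (isMon_chi n a c B D ψ ρ U).add _ _ }
    (fun _ _ => Commute.all _ _)

theorem Psi_single (v : p.ker) (x : MvPolynomial (Σ l : κ, Fin (n l)) A) :
    Psi n a c B D ψ φ ρ p U (AddMonoidAlgebra.single v x) =
      eval₂ (φ) (cinv n c D φ) x * chi n a c B D ψ ρ U (v : HH n a c B) := by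
  unfold Psi
  rw [AddMonoidAlgebra.liftNCRingHom_single]
  rfl

variable (hk : ∀ x : k, algebraMap k D x = φ (algebraMap k A x))

/-- the part of degree zero -/
noncomputable def EE : Subalgebra k D :=
  { (Psi n a c B D ψ φ ρ p U).range with
    algebraMap_mem' := fun x => ⟨AddMonoidAlgebra.single 0 (C (algebraMap k A x)), by
      rw [Psi_single, eval₂_C, hk]
      change _ * chi n a c B D ψ ρ U 0 = _
      rw [(isMon_chi n a c B D ψ ρ U).zero, mul_one]⟩ }

theorem mem_EE (x : D) : x ∈ EE n a c B D ψ φ ρ p U hk ↔ ∃ y, Psi n a c B D ψ φ ρ p U y = x := Iff.rfl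

/-- the parametrization -/
noncomputable def Ps : QQ n a c B p →+* EE n a c B D ψ φ ρ p U hk where
  toFun y := ⟨Psi n a c B D ψ φ ρ p U y, ⟨y, rfl⟩⟩
  map_one' := Subtype.ext (map_one _)
  map_zero' := Subtype.ext (map_zero _)
  map_mul' x y := Subtype.ext (map_mul _ x y)
  map_add' x y := Subtype.ext (map_add _ x y)

theorem Ps_surj : Function.Surjective (Ps n a c B D ψ φ ρ p U hk) := by
  rintro ⟨x, y, rfl⟩
  exact ⟨y, rfl⟩

/-- the coefficients -/
noncomputable def phE : A →+* EE n a c B D ψ φ ρ p U hk :=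
  (Ps n a c B D ψ φ ρ p U hk).comp (AddMonoidAlgebra.singleZeroRingHom.comp C)

theorem phE_val (x : A) : (phE n a c B D ψ φ ρ p U hk x : D) = φ x := by
  change Psi n a c B D ψ φ ρ p U (AddMonoidAlgebra.single 0 (C x)) = _
  rw [Psi_single, eval₂_C]
  change _ * chi n a c B D ψ ρ U 0 = _
  rw [(isMon_chi n a c B D ψ ρ U).zero, mul_one]

/-- the inverses of the coefficients -/
noncomputable def ciE (j : Σ l : κ, Fin (n l)) : EE n a c B D ψ φ ρ p U hk :=
  Ps n a c B D ψ φ ρ p U hk (AddMonoidAlgebra.single 0 (X j))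

theorem ciE_val (j : Σ l : κ, Fin (n l)) :
    (ciE n a c B D ψ φ ρ p U hk j : D) = cinv n c D φ j := by
  change Psi n a c B D ψ φ ρ p U (AddMonoidAlgebra.single 0 (X j)) = _
  rw [Psi_single, eval₂_X]
  change _ * chi n a c B D ψ ρ U 0 = _
  rw [(isMon_chi n a c B D ψ ρ U).zero, mul_one]

/-- the monomials of weight zero -/
noncomputable def chE (v : p.ker) : EE n a c B D ψ φ ρ p U hk :=
  Ps n a c B D ψ φ ρ p U hk (AddMonoidAlgebra.single v 1)

theorem chE_val (v : p.ker) :
    (chE n a c B D ψ φ ρ p U hk v : D) = chi n a c B D ψ ρ U (v : HH n a c B) := by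
  change Psi n a c B D ψ φ ρ p U (AddMonoidAlgebra.single v 1) = _
  rw [Psi_single, ← C_1, eval₂_C, map_one, one_mul]

/-- homomorphisms on `EE` are determined by the values on the generators -/
theorem E_ext {W : Type} [CommRing W] (g1 g2 : EE n a c B D ψ φ ρ p U hk →+* W)
    (h1 : ∀ x, g1 (phE n a c B D ψ φ ρ p U hk x) = g2 (phE n a c B D ψ φ ρ p U hk x))
    (h2 : ∀ j, g1 (ciE n a c B D ψ φ ρ p U hk j) = g2 (ciE n a c B D ψ φ ρ p U hk j))
    (h3 : ∀ v, g1 (chE n a c B D ψ φ ρ p U hk v) = g2 (chE n a c B D ψ φ ρ p U hk v)) : g1 = g2 := by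
  have h : g1.comp (Ps n a c B D ψ φ ρ p U hk) = g2.comp (Ps n a c B D ψ φ ρ p U hk) := by
    refine AddMonoidAlgebra.ringHom_ext ?_ ?_
    · intro x
      have h4 : (g1.comp (Ps n a c B D ψ φ ρ p U hk)).comp AddMonoidAlgebra.singleZeroRingHom =
          (g2.comp (Ps n a c B D ψ φ ρ p U hk)).comp AddMonoidAlgebra.singleZeroRingHom :=
        MvPolynomial.ringHom_ext h1 h2
      exact RingHom.congr_fun h4 x
    · intro v
      exact h3 v
  ext y
  obtain ⟨x, rfl⟩ := Ps_surj n a c B D ψ φ ρ p U hk y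
  exact RingHom.congr_fun h x

theorem ft_EE [Algebra.FiniteType k A] :
    Algebra.FiniteType k (EE n a c B D ψ φ ρ p U hk) := by
  have h1 : Algebra.FiniteType k (MvPolynomial (Σ l : κ, Fin (n l)) A) :=
    Algebra.FiniteType.trans (S := A) inferInstance inferInstance
  have h0 : Module.Finite ℤ (AddSubgroup.toIntSubmodule p.ker) := inferInstance
  have h2 : AddMonoid.FG p.ker := by
    have h3 : Module.Finite ℤ p.ker := h0
    have h4 : AddGroup.FG p.ker := Module.Finite.iff_addGroup_fg.mp h3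
    exact AddGroup.fg_iff_addMonoid_fg.mp h4
  have h3 : Algebra.FiniteType (MvPolynomial (Σ l : κ, Fin (n l)) A) (QQ n a c B p) :=
    AddMonoidAlgebra.finiteType_of_fg _ _
  have h4 : Algebra.FiniteType k (QQ n a c B p) := Algebra.FiniteType.trans h1 h3
  let f : QQ n a c B p →ₐ[k] EE n a c B D ψ φ ρ p U hk :=
    { Ps n a c B D ψ φ ρ p U hk with
      commutes' := fun x => by
        apply Subtype.ext
        change Psi n a c B D ψ φ ρ p U (AddMonoidAlgebra.single 0 (C (algebraMap k A x))) =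
          algebraMap k D x
        rw [Psi_single, eval₂_C, hk]
        change _ * chi n a c B D ψ ρ U 0 = _
        rw [(isMon_chi n a c B D ψ ρ U).zero, mul_one] }
  exact Algebra.FiniteType.of_surjective f (Ps_surj n a c B D ψ φ ρ p U hk)

end sub

end Pool.Agent.E8helper74.FQ
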