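import Pool.Agent.E8helper74.BA.Cell3

/-!
# The strata of a system of polynomial equations given by the partial sums
-/

set_option autoImplicit false
set_option linter.unusedSectionVars false

open MvPolynomial Pool.Agent.E8helper74.BA

attribute [local instance] Classical.propDecidable

namespace Pool.Agent.E8helper74.FQ

section pm

variable {ι : Type} [Fintype ι] {R : Type} [CommRing R]

/-- monomials in units -/
noncomputable def pm (U : ι → Rˣ) (a : ι → ℤ) : R := ((∏ i, U i ^ a i : Rˣ) : R)

theorem isMon_pm (U : ι → Rˣ) : IsMon (pm U) where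
  zero := by
    unfold pm
    simp
  add a b := by
    unfold pm
    rw [← Units.val_mul, ← Finset.prod_mul_distrib]
    congr 2
    funext i
    rw [Pi.add_apply, zpow_add]

theorem pm_single [DecidableEq ι] (U : ι → Rˣ) (i : ι) : pm U (Pi.single i 1) = U i := by
  unfold pm
  rw [Finset.prod_eq_single i]
  · rw [Pi.single_eq_same, zpow_one]
  · intro j _ hj
    rw [Pi.single_eq_of_ne hj, zpow_zero]
  · intro h
    exact absurd (Finset.mem_univ _) h

end pm

section sys

variable {A : Type} [CommRing A] {σ κ : Type} [Fintype σ] [Fintype κ] (n : κ → ℕ)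
  (a : κ → ℕ → (σ →₀ ℕ)) (c : κ → ℕ → A)

/-- the terms -/
noncomputable def tm (l : κ) (i : ℕ) : MvPolynomial σ A := monomial (a l i) (c l i)

/-- the partial sums -/
noncomputable def ps (l : κ) (i : ℕ) : MvPolynomial σ A := ∑ j ∈ Finset.range i, tm a c l j

theorem ps_zero (l : κ) : ps a c l 0 = 0 := by
  unfold ps
  rw [Finset.range_zero, Finset.sum_empty]

theorem ps_succ (l : κ) (i : ℕ) : ps a c l (i + 1) = ps a c l i + tm a c l i := by
  unfold ps
  rw [Finset.sum_range_succ]

/-- the variables, the partial sums and the coefficients -/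
noncomputable def fns : Finset (MvPolynomial σ A) :=
  (Finset.univ.image X ∪ Finset.univ.biUnion fun l => (Finset.range (n l + 1)).image (ps a c l)) ∪
    Finset.univ.biUnion fun l => (Finset.range (n l)).image fun i => C (c l i)

theorem X_mem (i : σ) : X i ∈ (fns n a c : Set (MvPolynomial σ A)) := by
  simp [fns]

theorem ps_mem (l : κ) (i : ℕ) (hi : i ≤ n l) : ps a c l i ∈ (fns n a c : Set (MvPolynomial σ A)) := by
  unfold fns
  rw [Finset.mem_coe, Finset.mem_union, Finset.mem_union, Finset.mem_biUnion]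
  left; right
  exact ⟨l, Finset.mem_univ _, Finset.mem_image_of_mem _ (Finset.mem_range.mpr (by omega))⟩

theorem C_mem (l : κ) (i : ℕ) (hi : i < n l) :
    C (c l i) ∈ (fns n a c : Set (MvPolynomial σ A)) := by
  unfold fns
  rw [Finset.mem_coe, Finset.mem_union]
  right
  rw [Finset.mem_biUnion]
  exact ⟨l, Finset.mem_univ _, Finset.mem_image_of_mem (fun i => C (c l i)) (Finset.mem_range.mpr hi)⟩

theorem mem_fns {x : MvPolynomial σ A} (hx : x ∈ (fns n a c : Set (MvPolynomial σ A))) :
    (∃ i, x = X i) ∨ (∃ l i, i ≤ n l ∧ x = ps a c l i) ∨ ∃ l i, i < n l ∧ x = C (c l i) := by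
  unfold fns at hx
  rw [Finset.mem_coe, Finset.mem_union, Finset.mem_union, Finset.mem_biUnion,
    Finset.mem_biUnion] at hx
  rcases hx with (hx | ⟨l, -, hx⟩) | ⟨l, -, hx⟩
  · obtain ⟨i, -, rfl⟩ := Finset.mem_image.mp hx
    exact Or.inl ⟨i, rfl⟩
  · obtain ⟨i, hi, rfl⟩ := Finset.mem_image.mp hx
    exact Or.inr (Or.inl ⟨l, i, by have := Finset.mem_range.mp hi; omega, rfl⟩)
  · obtain ⟨i, hi, rfl⟩ := Finset.mem_image.mp hx
    exact Or.inr (Or.inr ⟨l, i, Finset.mem_range.mp hi, rfl⟩)

/-- the index set of the variables and the partial sums -/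
abbrev Gm (σ : Type) {κ : Type} (n : κ → ℕ) : Type := σ ⊕ (Σ l : κ, Fin (n l + 1))

/-- the variables and the partial sums -/
noncomputable def el : Gm σ n → MvPolynomial σ A
  | Sum.inl i => X i
  | Sum.inr x => ps a c x.1 x.2

variable (B : Type) [CommRing B] [Algebra (MvPolynomial σ A) B]

/-- the element is a unit in `B` -/
abbrev uq (g : Gm σ n) : Prop := IsUnit (algebraMap (MvPolynomial σ A) B (el n a c g))

/-- the group of exponents -/
abbrev HH : Type := {g : Gm σ n // uq n a c B g} → ℤ

/-- the monomials in `B` -/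
noncomputable def mo : HH n a c B → B := pm fun g => (g.2 : IsUnit _).unit

theorem isMon_mo : IsMon (mo n a c B) := isMon_pm _

theorem mo_single (g : Gm σ n) (hg : uq n a c B g) :
    mo n a c B (Pi.single ⟨g, hg⟩ 1) = algebraMap (MvPolynomial σ A) B (el n a c g) := by
  exact pm_single (fun g : {g : Gm σ n // uq n a c B g} => (g.2 : IsUnit _).unit) ⟨g, hg⟩

/-- the variable is a unit -/
abbrev uv (i : σ) : Prop := uq n a c B (Sum.inl i)

/-- extension of the exponent vectors -/
def ext : ({i : σ // uv n a c B i} → ℤ) →+ HH n a c B where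
  toFun v := fun g => match g with
    | ⟨Sum.inl i, hi⟩ => v ⟨i, hi⟩
    | ⟨Sum.inr _, _⟩ => 0
  map_zero' := by
    funext g
    rcases g with ⟨i | x, hg⟩ <;> rfl
  map_add' v w := by
    funext g
    rcases g with ⟨i | x, hg⟩
    · rfl
    · simp

/-- the exponent vector of a term -/
def ev (l : κ) (i : ℕ) : HH n a c B := ext n a c B (res (uv n a c B) (a l i))

theorem ext_single (i : σ) (hi : uv n a c B i) :
    ext n a c B (Pi.single ⟨i, hi⟩ 1) = Pi.single ⟨Sum.inl i, hi⟩ 1 := by
  funext g
  rcases g with ⟨j | x, hg⟩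
  · change (Pi.single (⟨i, hi⟩ : {i : σ // uv n a c B i}) (1 : ℤ) : _ → ℤ) ⟨j, hg⟩ = _
    by_cases hj : j = i
    · subst hj
      rw [Pi.single_eq_same, Pi.single_eq_same]
    · rw [Pi.single_eq_of_ne, Pi.single_eq_of_ne]
      · intro h
        exact hj (Sum.inl.inj (Subtype.ext_iff.mp h))
      · intro h
        exact hj (Subtype.ext_iff.mp h)
  · change (0 : ℤ) = _
    rw [Pi.single_eq_of_ne]
    intro h
    exact absurd (Subtype.ext_iff.mp h) (by simp)

/-- the term is a unit -/
def uT (l : κ) (i : ℕ) : Prop := IsUnit (algebraMap (MvPolynomial σ A) B (tm a c l i))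

/-- the value of the partial sum -/
noncomputable def sv {E : Type} [CommRing E] (h : HH n a c B → E) (l : κ) (i : ℕ) : E :=
  if hi : ∃ hi : i < n l + 1, uq n a c B (Sum.inr ⟨l, ⟨i, hi⟩⟩) then
    h (Pi.single ⟨Sum.inr ⟨l, ⟨i, hi.1⟩⟩, hi.2⟩ 1) else 0

/-- the value of the term -/
noncomputable def tv {E : Type} [CommRing E] (h : HH n a c B → E) (φ : A →+* E) (l : κ) (i : ℕ) : E :=
  if uT a c B l i then φ (c l i) * h (ev n a c B l i) else 0

/-- Solutions of the system. -/
structure Sol {E : Type} [CommRing E] (h : HH n a c B → E) (φ : A →+* E) : Prop where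
  mon : IsMon h
  zero : ∀ l i, i < n l → algebraMap (MvPolynomial σ A) B (C (c l i)) = 0 → φ (c l i) = 0
  unit : ∀ l i, i < n l → IsUnit (algebraMap (MvPolynomial σ A) B (C (c l i))) → IsUnit (φ (c l i))
  rel : ∀ l i, i < n l → sv n a c B h l (i + 1) = sv n a c B h l i + tv n a c B h φ l i

theorem uT_iff (l : κ) (i : ℕ) :
    uT a c B l i ↔ Sup (uv n a c B) (a l i) ∧
      IsUnit (algebraMap (MvPolynomial σ A) B (C (c l i))) := by
  unfold uT tm
  have h1 : (monomial (a l i) (c l i) : MvPolynomial σ A) =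
      C (c l i) * ∏ j, X j ^ (a l i j) := by
    rw [monomial_eq]
    congr 1
    rw [Finsupp.prod_fintype]
    intro j
    exact pow_zero _
  rw [h1, map_mul, IsUnit.mul_iff, map_prod, and_comm]
  refine and_congr_left' ?_
  rw [IsUnit.prod_univ_iff]
  constructor
  · intro h j hj
    have := h j
    rw [map_pow] at this
    exact (isUnit_pow_iff hj).mp this
  · intro h j
    by_cases hj : a l i j = 0
    · rw [hj, pow_zero, map_one]
      exact isUnit_one
    · rw [map_pow]
      exact IsUnit.pow _ (h j hj)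

section tgt

variable {E : Type} [CommRing E] {h : HH n a c B → E} {φ : A →+* E}

theorem g_tm (hB : IsStratum (Ideal.span (Set.range fun l => ps a c l (n l)))
      (fns n a c : Set (MvPolynomial σ A)) B) (hh : IsMon h)
    (g : MvPolynomial σ A →+* E) (hC : ∀ x, g (C x) = φ x)
    (hg : ∀ i, g (X i) = if hi : uv n a c B i then h (Pi.single ⟨Sum.inl i, hi⟩ 1) else 0)
    (hz : ∀ l i, i < n l → algebraMap (MvPolynomial σ A) B (C (c l i)) = 0 → φ (c l i) = 0)
    (l : κ) (i : ℕ) (hi : i < n l) :
    g (tm a c l i) = tv n a c B h φ l i := by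
  have h1 : IsMon (fun v => h (ext n a c B v)) :=
    ⟨by rw [map_zero]; exact hh.zero, fun v w => by rw [map_add]; exact hh.add _ _⟩
  have h2 := g_monomial h1 g (q := uv n a c B) (fun i => by
    rw [hg]
    by_cases hi : uv n a c B i
    · rw [dif_pos hi, dif_pos hi, ext_single]
    · rw [dif_neg hi, dif_neg hi]) (a l i) (c l i)
  unfold tm tv
  rw [h2]
  by_cases hT : uT a c B l i
  · rw [if_pos hT, if_pos ((uT_iff n a c B l i).mp hT).1, hC]
    rfl
  · rw [if_neg hT]
    by_cases hS : Sup (uv n a c B) (a l i)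
    · rw [if_pos hS, hC]
      have h3 : ¬ IsUnit (algebraMap (MvPolynomial σ A) B (C (c l i))) := fun h4 =>
        hT ((uT_iff n a c B l i).mpr ⟨hS, h4⟩)
      rcases hB.dich _ (C_mem n a c l i hi) with h4 | h4
      · exact absurd h4 h3
      · rw [hz l i hi h4, zero_mul]
    · rw [if_neg hS]

variable (hB : IsStratum (Ideal.span (Set.range fun l => ps a c l (n l)))
  (fns n a c : Set (MvPolynomial σ A)) B)

include hB

theorem sv_zero [Nontrivial B] (l : κ) : sv n a c B h l 0 = 0 := by
  unfold sv
  rw [dif_neg]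
  rintro ⟨h0, h1⟩
  change IsUnit (algebraMap (MvPolynomial σ A) B (ps a c l 0)) at h1
  rw [ps_zero, map_zero] at h1
  exact not_isUnit_zero h1

theorem sv_top [Nontrivial B] (l : κ) : sv n a c B h l (n l) = 0 := by
  unfold sv
  rw [dif_neg]
  rintro ⟨h0, h1⟩
  change IsUnit (algebraMap (MvPolynomial σ A) B (ps a c l (n l))) at h1
  rw [hB.zero _ (Ideal.subset_span ⟨l, rfl⟩)] at h1
  exact not_isUnit_zero h1

/-- the universal property -/
theorem lift_sol [Nontrivial B] (hs : Sol n a c B h φ) :
    ∃ Θ : B →+* E, (∀ v, Θ (mo n a c B v) = h v) ∧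
      ∀ x, Θ (algebraMap (MvPolynomial σ A) B (C x)) = φ x := by
  let g : MvPolynomial σ A →+* E := eval₂Hom φ
    (fun i => if hi : uv n a c B i then h (Pi.single ⟨Sum.inl i, hi⟩ 1) else 0)
  have hC : ∀ x, g (C x) = φ x := fun x => by
    change eval₂ _ _ _ = _
    rw [eval₂_C]
  have hX : ∀ i, g (X i) = if hi : uv n a c B i then h (Pi.single ⟨Sum.inl i, hi⟩ 1) else 0 :=
    fun i => by
      change eval₂ _ _ _ = _
      rw [eval₂_X]
  have hps : ∀ l i, i ≤ n l → g (ps a c l i) = sv n a c B h l i := by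
    intro l i
    induction i with
    | zero =>
      intro _
      rw [ps_zero, map_zero, sv_zero n a c B hB]
    | succ i ih =>
      intro hi
      rw [ps_succ, map_add, ih (by omega), g_tm n a c B hB hs.mon g hC hX hs.zero l i (by omega),
        ← hs.rel l i (by omega)]
  obtain ⟨Θ, hΘ⟩ := hB.lift E g (by
      have hle : Ideal.span (Set.range fun l => ps a c l (n l)) ≤ RingHom.ker g := by
        rw [Ideal.span_le]
        rintro _ ⟨l, rfl⟩
        change g (ps a c l (n l)) = 0
        rw [hps l (n l) le_rfl, sv_top n a c B hB]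
      intro x hx
      exact hle hx) (by
      intro x hx h0
      rcases mem_fns n a c hx with ⟨i, rfl⟩ | ⟨l, i, hi, rfl⟩ | ⟨l, i, hi, rfl⟩
      · rw [hX, dif_neg]
        intro hi
        change IsUnit (algebraMap (MvPolynomial σ A) B (X i)) at hi
        rw [h0] at hi
        exact not_isUnit_zero hi
      · rw [hps l i hi]
        unfold sv
        rw [dif_neg]
        rintro ⟨h1, h2⟩
        change IsUnit (algebraMap (MvPolynomial σ A) B (ps a c l i)) at h2
        rw [h0] at h2
        exact not_isUnit_zero h2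
      · rw [hC, hs.zero l i hi h0]) (by
      intro x hx hu
      rcases mem_fns n a c hx with ⟨i, rfl⟩ | ⟨l, i, hi, rfl⟩ | ⟨l, i, hi, rfl⟩
      · rw [hX, dif_pos (show uv n a c B i from hu)]
        exact mon_unit hs.mon _
      · rw [hps l i hi]
        unfold sv
        rw [dif_pos ⟨Nat.lt_succ_of_le hi, hu⟩]
        exact mon_unit hs.mon _
      · rw [hC]
        exact hs.unit l i hi hu)
  have hΘa : ∀ x, Θ (algebraMap _ B x) = g x := fun x => RingHom.congr_fun hΘ x
  refine ⟨Θ, ?_, fun x => by rw [hΘa, hC]⟩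
  intro v
  refine IsMon.ext (h := fun v => Θ (mo n a c B v)) ?_ hs.mon ?_ v
  · refine ⟨?_, fun v w => ?_⟩
    · rw [(isMon_mo n a c B).zero, map_one]
    · rw [(isMon_mo n a c B).add, map_mul]
  · rintro ⟨i | ⟨l, i, hi⟩, hg⟩
    · rw [mo_single, hΘa]
      change g (X i) = _
      rw [hX, dif_pos (show uv n a c B i from hg)]
    · rw [mo_single, hΘa]
      change g (ps a c l i) = _
      rw [hps l i (by omega)]
      unfold sv
      rw [dif_pos ⟨hi, hg⟩]

/-- the universal solution -/
theorem sol_B (D : Type) [CommRing D] (ψ : B →+* D) :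
    Sol n a c B (fun v => ψ (mo n a c B v))
      (ψ.comp ((algebraMap (MvPolynomial σ A) B).comp C)) where
  mon := ⟨by rw [(isMon_mo n a c B).zero, map_one], fun v w => by
    rw [(isMon_mo n a c B).add, map_mul]⟩
  zero l i _ h0 := by
    change ψ (algebraMap (MvPolynomial σ A) B (C (c l i))) = 0
    rw [h0, map_zero]
  unit l i _ h0 := h0.map ψ
  rel l i hi := by
    have hX : ∀ i, algebraMap (MvPolynomial σ A) B (X i) =
        if hi : uv n a c B i then mo n a c B (Pi.single ⟨Sum.inl i, hi⟩ 1) else 0 := by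
      intro i
      by_cases hi : uv n a c B i
      · rw [dif_pos hi]
        exact (mo_single n a c B (Sum.inl i) hi).symm
      · rw [dif_neg hi]
        rcases hB.dich (X i) (X_mem n a c i) with h | h
        · exact absurd h hi
        · exact h
    have hS : ∀ i, i ≤ n l → sv n a c B (fun v => ψ (mo n a c B v)) l i =
        ψ (algebraMap (MvPolynomial σ A) B (ps a c l i)) := by
      intro i hi
      unfold sv
      by_cases h1 : ∃ hi : i < n l + 1, uq n a c B (Sum.inr ⟨l, ⟨i, hi⟩⟩)
      · rw [dif_pos h1]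
        exact congrArg ψ (mo_single n a c B (Sum.inr ⟨l, ⟨i, h1.1⟩⟩) h1.2)
      · rw [dif_neg h1]
        rcases hB.dich _ (ps_mem n a c l i hi) with h | h
        · exact absurd ⟨Nat.lt_succ_of_le hi, h⟩ h1
        · rw [h, map_zero]
    have hT : tv n a c B (fun v => ψ (mo n a c B v))
        (ψ.comp ((algebraMap (MvPolynomial σ A) B).comp C)) l i =
        ψ (algebraMap (MvPolynomial σ A) B (tm a c l i)) := by
      rw [g_tm n a c B (E := B) (h := mo n a c B) (φ := (algebraMap (MvPolynomial σ A) B).comp C) hB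
        (isMon_mo n a c B) (algebraMap (MvPolynomial σ A) B) (fun x => rfl) hX
        (fun l i _ h => h) l i hi]
      unfold tv
      by_cases h1 : uT a c B l i
      · rw [if_pos h1, if_pos h1, map_mul]
        rfl
      · rw [if_neg h1, if_neg h1, map_zero]
    rw [hS (i + 1) hi, hS i hi.le, hT, ← map_add, ← map_add, ps_succ]

theorem ext_B {D : Type} [CommRing D] (g1 g2 : B →+* D)
    (h1 : ∀ v, g1 (mo n a c B v) = g2 (mo n a c B v))
    (h2 : ∀ x, g1 (algebraMap (MvPolynomial σ A) B (C x)) =
      g2 (algebraMap (MvPolynomial σ A) B (C x))) : g1 = g2 := by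
  refine hB.ext D g1 g2 (MvPolynomial.ringHom_ext (fun x => h2 x) fun i => ?_)
  change g1 (algebraMap _ B (X i)) = g2 (algebraMap _ B (X i))
  rcases hB.dich (X i) (X_mem n a c i) with h | h
  · have h3 := mo_single n a c B (Sum.inl i) h
    change _ = algebraMap (MvPolynomial σ A) B (X i) at h3
    rw [← h3]
    exact h1 _
  · rw [h, map_zero, map_zero]

end tgt

end sys

end Pool.Agent.E8helper74.FQ
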