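import Pool.Agent.E8helper74.FQ.Sub

/-!
# Homomorphisms from the covering of a stratum
-/

set_option autoImplicit false
set_option linter.unusedSectionVars false

open MvPolynomial Pool.Agent.E8helper74.BA

attribute [local instance] Classical.propDecidable

namespace Pool.Agent.E8helper74.FQ

section theta

variable {k : Type} [Field k] {A : Type} [CommRing A] [Algebra k A] {σ κ : Type} [Fintype σ]
  [Fintype κ] (n : κ → ℕ) (a : κ → ℕ → (σ →₀ ℕ)) (c : κ → ℕ → A)
  (B : Type) [CommRing B] [Algebra (MvPolynomial σ A) B]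
  (D : Type) [CommRing D] [Algebra k D] (ψ : B →+* D) (φ : A →+* D) {m r N : ℕ}
  (ρ : HH n a c B →+ (Fin m ⊕ Fin m → ℤ)) (p : HH n a c B →+ (Fin r → ℤ))
  (s : (Fin r → ℤ) →+ HH n a c B)
  (U : Fin m ⊕ Fin m → Dˣ) (hk : ∀ x : k, algebraMap k D x = φ (algebraMap k A x))
  (e : Tri n a c B ≃ Fin m)

theorem pm_yv (δ : Fin m ⊕ Fin m) (N : ℕ) : pm U (yv δ (N : ℤ)) = (U δ : D) ^ N := by
  rw [yv_nsmul, (isMon_pm U).nsmul]
  congr 1
  have h : yv δ 1 = Pi.single δ (1 : ℤ) := by
    funext j
    by_cases hj : j = δ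
    · subst hj
      rw [yv_same, Pi.single_eq_same]
    · rw [yv_ne hj, Pi.single_eq_of_ne hj]
  rw [h, pm_single]

/-- the data on the covering -/
structure Dat : Prop where
  hφ : ∀ x, φ x = ψ (algebraMap (MvPolynomial σ A) B (C x))
  hs : ∀ x, p (s x) = x
  p0 : ∀ l i, i < n l → UU n a c B l i → UU n a c B l (i + 1) →
    p (es n a c B l i - es n a c B l (i + 1)) = 0
  p1 : ∀ l i, i < n l → uT a c B l i → UU n a c B l (i + 1) →
    p (ev n a c B l i - es n a c B l (i + 1)) = 0
  p2 : ∀ l i, i < n l → uT a c B l i → UU n a c B l i →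
    p (ev n a c B l i - es n a c B l i) = 0
  r0 : ∀ x : Tri n a c B, ρ (es n a c B x.1.1 x.1.2 - es n a c B x.1.1 (x.1.2 + 1)) =
        yv (Sum.inl (e x)) (N : ℤ)
  r1 : ∀ x : Tri n a c B, ρ (ev n a c B x.1.1 x.1.2 - es n a c B x.1.1 (x.1.2 + 1)) =
        yv (Sum.inr (e x)) (N : ℤ)
  r2 : ∀ l i, i < n l → UU n a c B l i → UU n a c B l (i + 1) → ¬ uT a c B l i →
        ρ (es n a c B l i - es n a c B l (i + 1)) = 0
  r3 : ∀ l i, i < n l → ¬ UU n a c B l i → UU n a c B l (i + 1) → uT a c B l i →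
        ρ (ev n a c B l i - es n a c B l (i + 1)) = 0
  r4 : ∀ l i, i < n l → UU n a c B l i → ¬ UU n a c B l (i + 1) → uT a c B l i →
        ρ (ev n a c B l i - es n a c B l i) = 0
  u0 : ∀ x : Tri n a c B, (U (Sum.inl (e x)) : D) ^ N =
    ψ (mo n a c B (es n a c B x.1.1 x.1.2 - es n a c B x.1.1 (x.1.2 + 1)))
  u1 : ∀ x : Tri n a c B, (U (Sum.inr (e x)) : D) ^ N =
    φ (c x.1.1 x.1.2) * ψ (mo n a c B (ev n a c B x.1.1 x.1.2 - es n a c B x.1.1 (x.1.2 + 1)))
  lift : ∀ (W : Type) [CommRing W] (g : B →+* W) (t : Fin m ⊕ Fin m → W),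
    (∀ x : Tri n a c B, t (Sum.inl (e x)) ^ N =
      g (mo n a c B (es n a c B x.1.1 x.1.2 - es n a c B x.1.1 (x.1.2 + 1)))) →
    (∀ x : Tri n a c B, t (Sum.inr (e x)) ^ N =
      g (algebraMap (MvPolynomial σ A) B (C (c x.1.1 x.1.2))) *
        g (mo n a c B (ev n a c B x.1.1 x.1.2 - es n a c B x.1.1 (x.1.2 + 1)))) →
    ∃ G : D →+* W, G.comp ψ = g ∧ ∀ δ, G (U δ) = t δ
  ext : ∀ (W : Type) [CommRing W] (g1 g2 : D →+* W), g1.comp ψ = g2.comp ψ →
    (∀ δ, g1 (U δ) = g2 (U δ)) → g1 = g2

variable (hD : Dat n a c B D ψ φ (N := N) ρ p s U e)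
variable (hB : IsStratum (Ideal.span (Set.range fun l => ps a c l (n l)))
  (fns n a c : Set (MvPolynomial σ A)) B) [Nontrivial B]

include hD in
theorem mem_ker (v : HH n a c B) : v - s (p v) ∈ p.ker := by
  rw [AddMonoidHom.mem_ker, map_sub, hD.hs, sub_self]

theorem chi_mul (v : HH n a c B) :
    chi n a c B D ψ ρ U v * pm U (ρ v) = ψ (mo n a c B v) := by
  unfold chi
  rw [mul_assoc, (isMon_pm U).neg_mul, mul_one]

variable {W : Type} [CommRing W] (ιE : EE n a c B D ψ φ ρ p U hk →+* W)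
  {yW : (Fin m ⊕ Fin m → ℤ) → W} (hy : IsMon yW) {kW : (Fin r → ℤ) → W} (hkW : IsMon kW)
  (hrel : ∀ i : Fin m, yW (yv (Sum.inl i) N) + yW (yv (Sum.inr i) N) = 1)

/-- the monomials in `W` -/
noncomputable def hW (yW : (Fin m ⊕ Fin m → ℤ) → W) (kW : (Fin r → ℤ) → W) (v : HH n a c B) : W :=
  kW (p v) * yW (ρ v) * ιE (chE n a c B D ψ φ ρ p U hk ⟨v - s (p v), mem_ker n a c B D ψ φ ρ p s U e hD v⟩)

theorem chE_zero : chE n a c B D ψ φ ρ p U hk 0 = 1 := by
  apply Subtype.ext
  rw [chE_val]
  exact (isMon_chi n a c B D ψ ρ U).zero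

theorem chE_add (v w : p.ker) : chE n a c B D ψ φ ρ p U hk (v + w) =
    chE n a c B D ψ φ ρ p U hk v * chE n a c B D ψ φ ρ p U hk w := by
  apply Subtype.ext
  rw [chE_val]
  change _ = (chE n a c B D ψ φ ρ p U hk v : D) * (chE n a c B D ψ φ ρ p U hk w : D)
  rw [chE_val, chE_val]
  exact (isMon_chi n a c B D ψ ρ U).add _ _

include hy hkW in
theorem isMon_hW : IsMon (hW n a c B D ψ φ ρ p s U hk e hD ιE yW kW) where
  zero := by
    unfold hW
    have h : (⟨(0 : HH n a c B) - s (p 0), mem_ker n a c B D ψ φ ρ p s U e hD 0⟩ : p.ker) = 0 := by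
      apply Subtype.ext
      change (0 : HH n a c B) - s (p 0) = 0
      rw [map_zero, map_zero, sub_zero]
    rw [h, chE_zero, map_one, map_zero, map_zero, hy.zero, hkW.zero, mul_one, mul_one]
  add v w := by
    unfold hW
    have h : (⟨(v + w) - s (p (v + w)), mem_ker n a c B D ψ φ ρ p s U e hD (v + w)⟩ : p.ker) =
        ⟨v - s (p v), mem_ker n a c B D ψ φ ρ p s U e hD v⟩ +
          ⟨w - s (p w), mem_ker n a c B D ψ φ ρ p s U e hD w⟩ := by
      apply Subtype.ext
      change (v + w) - s (p (v + w)) = (v - s (p v)) + (w - s (p w))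
      rw [map_add, map_add]
      abel
    rw [h, chE_add, map_mul, map_add, map_add, hy.add, hkW.add]
    ring

include hkW in
/-- the value on a difference of exponents -/
theorem hW_ker (v : HH n a c B) (hv : p v = 0) : hW n a c B D ψ φ ρ p s U hk e hD ιE yW kW v =
    yW (ρ v) * ιE (chE n a c B D ψ φ ρ p U hk ⟨v, hv⟩) := by
  unfold hW
  have h : (⟨v - s (p v), mem_ker n a c B D ψ φ ρ p s U e hD v⟩ : p.ker) = ⟨v, hv⟩ := by
    apply Subtype.ext
    change v - s (p v) = v
    rw [hv, map_zero, sub_zero]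
  rw [h, hv, hkW.zero, one_mul]

include hkW in
theorem hW_d0 (x : Tri n a c B) : hW n a c B D ψ φ ρ p s U hk e hD ιE yW kW
    (es n a c B x.1.1 x.1.2 - es n a c B x.1.1 (x.1.2 + 1)) = yW (yv (Sum.inl (e x)) N) := by
  have h0 := hD.p0 x.1.1 x.1.2 x.1.2.2 x.2.1 x.2.2.1
  rw [hW_ker n a c B D ψ φ ρ p s U hk e hD ιE hkW _ h0, hD.r0]
  have h1 : chE n a c B D ψ φ ρ p U hk
      ⟨es n a c B x.1.1 x.1.2 - es n a c B x.1.1 (x.1.2 + 1), h0⟩ = 1 := by
    apply Subtype.ext
    rw [chE_val]
    change chi n a c B D ψ ρ U _ = 1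
    have h2 := chi_mul n a c B D ψ ρ U (es n a c B x.1.1 x.1.2 - es n a c B x.1.1 (x.1.2 + 1))
    rw [hD.r0, pm_yv, ← hD.u0] at h2
    exact ((U (Sum.inl (e x))).isUnit.pow N).mul_right_cancel (h2.trans (one_mul _).symm)
  rw [h1, map_one, mul_one]

include hkW in
theorem hW_d1 (x : Tri n a c B) : ιE (phE n a c B D ψ φ ρ p U hk (c x.1.1 x.1.2)) *
    hW n a c B D ψ φ ρ p s U hk e hD ιE yW kW
    (ev n a c B x.1.1 x.1.2 - es n a c B x.1.1 (x.1.2 + 1)) = yW (yv (Sum.inr (e x)) N) := by
  have h0 := hD.p1 x.1.1 x.1.2 x.1.2.2 x.2.2.2 x.2.2.1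
  rw [hW_ker n a c B D ψ φ ρ p s U hk e hD ιE hkW _ h0, hD.r1]
  have h1 : phE n a c B D ψ φ ρ p U hk (c x.1.1 x.1.2) * chE n a c B D ψ φ ρ p U hk
      ⟨ev n a c B x.1.1 x.1.2 - es n a c B x.1.1 (x.1.2 + 1), h0⟩ = 1 := by
    apply Subtype.ext
    change (phE n a c B D ψ φ ρ p U hk (c x.1.1 x.1.2) : D) * (chE n a c B D ψ φ ρ p U hk _ : D) = 1
    rw [chE_val, phE_val]
    have h2 := chi_mul n a c B D ψ ρ U (ev n a c B x.1.1 x.1.2 - es n a c B x.1.1 (x.1.2 + 1))
    rw [hD.r1, pm_yv] at h2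
    refine ((U (Sum.inr (e x))).isUnit.pow N).mul_right_cancel ?_
    rw [mul_assoc, h2, one_mul, ← hD.u1]
  rw [mul_left_comm, ← map_mul, h1, map_one, mul_one]

include hy hkW hrel hB in
theorem sol_W : Sol n a c B (hW n a c B D ψ φ ρ p s U hk e hD ιE yW kW)
    (ιE.comp (phE n a c B D ψ φ ρ p U hk)) := by
  have hmon := isMon_hW n a c B D ψ φ ρ p s U hk e hD ιE hy hkW
  have hsB := sol_B n a c B hB B (RingHom.id B)
  have hsD := sol_B n a c B hB D ψ
  have hm := hsB.mon
  refine ⟨hmon, ?_, ?_, ?_⟩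
  · intro l i _ h0
    change ιE (phE n a c B D ψ φ ρ p U hk (c l i)) = 0
    have h1 : phE n a c B D ψ φ ρ p U hk (c l i) = 0 := by
      apply Subtype.ext
      rw [phE_val, hD.hφ, h0, map_zero]
      rfl
    rw [h1, map_zero]
  · intro l i hi h0
    change IsUnit (ιE (phE n a c B D ψ φ ρ p U hk (c l i)))
    have h1 : IsUnit (φ (c l i)) := by
      rw [hD.hφ]
      exact h0.map ψ
    have h2 : phE n a c B D ψ φ ρ p U hk (c l i) * ciE n a c B D ψ φ ρ p U hk ⟨l, ⟨i, hi⟩⟩ = 1 := by
      apply Subtype.ext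
      change (phE n a c B D ψ φ ρ p U hk (c l i) : D) *
        (ciE n a c B D ψ φ ρ p U hk ⟨l, ⟨i, hi⟩⟩ : D) = 1
      rw [phE_val, ciE_val]
      exact cinv_mul n c D φ ⟨l, ⟨i, hi⟩⟩ h1
    exact (IsUnit.of_mul_eq_one _ h2).map ιE
  · intro l i hi
    have hrB := hsB.rel l i hi
    rw [sv_eq, sv_eq] at hrB
    unfold tv at hrB
    rw [sv_eq, sv_eq]
    unfold tv
    have key : ∀ (v w : HH n a c B), mo n a c B v = mo n a c B w → mo n a c B (w - v) = 1 := by
      intro v w h
      have h1 : mo n a c B (w - v) * mo n a c B v = 1 * mo n a c B v := by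
        rw [← (isMon_mo n a c B).add, sub_add_cancel, one_mul, h]
      exact (mon_unit (isMon_mo n a c B) v).mul_right_cancel h1
    by_cases h1 : UU n a c B l (i + 1)
    · by_cases h0 : UU n a c B l i
      · by_cases hT : uT a c B l i
        · -- three terms
          rw [if_pos h1, if_pos h0, if_pos hT]
          let x : Tri n a c B := ⟨⟨l, ⟨i, hi⟩⟩, h0, h1, hT⟩
          have e0 := hW_d0 n a c B D ψ φ ρ p s U hk e hD ιE (yW := yW) hkW x
          have e1 := hW_d1 n a c B D ψ φ ρ p s U hk e hD ιE (yW := yW) hkW x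
          have e2 := hrel (e x)
          rw [← e0, ← e1] at e2
          have e3 := congrArg (fun t => t * hW n a c B D ψ φ ρ p s U hk e hD ιE yW kW
            (es n a c B l (i + 1))) e2
          simp only [one_mul, add_mul] at e3
          rw [mul_assoc, ← hmon.add, ← hmon.add, sub_add_cancel, sub_add_cancel] at e3
          exact e3.symm
        · rw [if_pos h1, if_pos h0, if_neg hT, add_zero]
          rw [if_pos h1, if_pos h0, if_neg hT, add_zero] at hrB
          have h2 := hD.p0 l i hi h0 h1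
          have h3 : hW n a c B D ψ φ ρ p s U hk e hD ιE yW kW
              (es n a c B l i - es n a c B l (i + 1)) = 1 := by
            rw [hW_ker n a c B D ψ φ ρ p s U hk e hD ιE hkW _ h2, hD.r2 l i hi h0 h1 hT, hy.zero,
              one_mul]
            have h4 : chE n a c B D ψ φ ρ p U hk
                ⟨es n a c B l i - es n a c B l (i + 1), h2⟩ = 1 := by
              apply Subtype.ext
              rw [chE_val]
              change chi n a c B D ψ ρ U _ = 1
              unfold chi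
              rw [hD.r2 l i hi h0 h1 hT, neg_zero, (isMon_pm U).zero, mul_one, key _ _ hrB, map_one]
            rw [h4, map_one]
          have h5 := hmon.add (es n a c B l i - es n a c B l (i + 1)) (es n a c B l (i + 1))
          rw [sub_add_cancel, h3, one_mul] at h5
          exact h5.symm
      · by_cases hT : uT a c B l i
        · rw [if_pos h1, if_neg h0, if_pos hT, zero_add]
          rw [if_pos h1, if_neg h0, if_pos hT, zero_add] at hrB
          have h2 := hD.p1 l i hi hT h1
          have h3 : ιE (phE n a c B D ψ φ ρ p U hk (c l i)) * hW n a c B D ψ φ ρ p s U hk e hD ιE yW kW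
              (ev n a c B l i - es n a c B l (i + 1)) = 1 := by
            rw [hW_ker n a c B D ψ φ ρ p s U hk e hD ιE hkW _ h2, hD.r3 l i hi h0 h1 hT, hy.zero,
              one_mul, ← map_mul]
            have h4 : phE n a c B D ψ φ ρ p U hk (c l i) * chE n a c B D ψ φ ρ p U hk
                ⟨ev n a c B l i - es n a c B l (i + 1), h2⟩ = 1 := by
              apply Subtype.ext
              change (phE n a c B D ψ φ ρ p U hk (c l i) : D) * (chE n a c B D ψ φ ρ p U hk _ : D) = 1
              rw [chE_val, phE_val]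
              unfold chi
              rw [hD.r3 l i hi h0 h1 hT, neg_zero, (isMon_pm U).zero, mul_one, hD.hφ, ← map_mul,
                ← map_one ψ]
              congr 1
              refine (mon_unit (isMon_mo n a c B) (es n a c B l (i + 1))).mul_right_cancel ?_
              rw [mul_assoc, ← (isMon_mo n a c B).add, sub_add_cancel, one_mul]
              exact hrB.symm
            rw [h4, map_one]
          have h5 := hmon.add (ev n a c B l i - es n a c B l (i + 1)) (es n a c B l (i + 1))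
          rw [sub_add_cancel] at h5
          rw [h5]
          change _ = ιE (phE n a c B D ψ φ ρ p U hk (c l i)) * _
          rw [← mul_assoc, h3, one_mul]
        · exfalso
          rw [if_pos h1, if_neg h0, if_neg hT, zero_add] at hrB
          exact (mon_unit hm (es n a c B l (i + 1))).ne_zero hrB
    · by_cases h0 : UU n a c B l i
      · by_cases hT : uT a c B l i
        · rw [if_neg h1, if_pos h0, if_pos hT]
          rw [if_neg h1, if_pos h0, if_pos hT] at hrB
          have h2 := hD.p2 l i hi hT h0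
          have h3 : ιE (phE n a c B D ψ φ ρ p U hk (c l i)) * hW n a c B D ψ φ ρ p s U hk e hD ιE yW kW
              (ev n a c B l i - es n a c B l i) = -1 := by
            rw [hW_ker n a c B D ψ φ ρ p s U hk e hD ιE hkW _ h2, hD.r4 l i hi h0 h1 hT, hy.zero,
              one_mul, ← map_mul]
            have h4 : phE n a c B D ψ φ ρ p U hk (c l i) * chE n a c B D ψ φ ρ p U hk
                ⟨ev n a c B l i - es n a c B l i, h2⟩ = -1 := by
              apply Subtype.ext
              change (phE n a c B D ψ φ ρ p U hk (c l i) : D) * (chE n a c B D ψ φ ρ p U hk _ : D) = -1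
              rw [chE_val, phE_val]
              unfold chi
              rw [hD.r4 l i hi h0 h1 hT, neg_zero, (isMon_pm U).zero, mul_one, hD.hφ, ← map_mul,
                ← map_one ψ, ← map_neg]
              congr 1
              refine (mon_unit (isMon_mo n a c B) (es n a c B l i)).mul_right_cancel ?_
              rw [mul_assoc, ← (isMon_mo n a c B).add, sub_add_cancel, neg_mul, one_mul,
                eq_neg_iff_add_eq_zero, add_comm]
              exact hrB.symm
            rw [h4, map_neg, map_one]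
          have h5 := hmon.add (ev n a c B l i - es n a c B l i) (es n a c B l i)
          rw [sub_add_cancel] at h5
          rw [h5]
          change _ = _ + ιE (phE n a c B D ψ φ ρ p U hk (c l i)) * _
          rw [← mul_assoc, h3]
          ring
        · exfalso
          rw [if_neg h1, if_pos h0, if_neg hT, add_zero] at hrB
          exact (mon_unit hm (es n a c B l i)).ne_zero hrB.symm
      · by_cases hT : uT a c B l i
        · exfalso
          rw [if_neg h1, if_neg h0, if_pos hT, zero_add] at hrB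
          have h2 : IsUnit ((RingHom.id B).comp ((algebraMap (MvPolynomial σ A) B).comp C) (c l i)) :=
            ((uT_iff n a c B l i).mp hT).2
          exact (h2.mul (mon_unit hm (ev n a c B l i))).ne_zero hrB.symm
        · rw [if_neg h1, if_neg h0, if_neg hT, add_zero]

include hy hkW hrel hB in
/-- The homomorphism from the covering. -/
theorem theta : ∃ G : D →+* W, (∀ v, G (ψ (mo n a c B v)) =
      hW n a c B D ψ φ ρ p s U hk e hD ιE yW kW v) ∧
    (∀ x, G (φ x) = ιE (phE n a c B D ψ φ ρ p U hk x)) ∧ ∀ δ, G (U δ) = yW (yv δ 1) := by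
  obtain ⟨g, hg1, hg2⟩ := lift_sol n a c B hB
    (sol_W n a c B D ψ φ ρ p s U hk e hD hB ιE hy hkW hrel)
  obtain ⟨G, hG1, hG2⟩ := hD.lift W g (fun δ => yW (yv δ 1)) (fun x => by
      rw [hg1, hW_d0 n a c B D ψ φ ρ p s U hk e hD ιE hkW x, yv_nsmul, hy.nsmul]) (fun x => by
      rw [hg1, hg2]
      change _ = ιE (phE n a c B D ψ φ ρ p U hk (c x.1.1 x.1.2)) * _
      rw [hW_d1 n a c B D ψ φ ρ p s U hk e hD ιE hkW x, yv_nsmul, hy.nsmul])
  refine ⟨G, ?_, ?_, hG2⟩
  · intro v
    rw [← hg1, ← hG1]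
    rfl
  · intro x
    rw [hD.hφ]
    have h1 : G (ψ (algebraMap (MvPolynomial σ A) B (C x))) =
        g (algebraMap (MvPolynomial σ A) B (C x)) := by
      rw [← hG1]
      rfl
    rw [h1, hg2]
    rfl

end theta

end Pool.Agent.E8helper74.FQ
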